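import Pool.Agent.Helper35_XQ.Stmt
import Mathlib.Analysis.SpecialFunctions.Gaussian.GaussianIntegral
import Mathlib.MeasureTheory.Integral.ExpDecay

/-!
Squad XQ, part A2, module ERF: error terms in the strip.
-/

set_option autoImplicit false

namespace Pool.Agent.XQ.GI.H67

open MeasureTheory Complex Filter Topology Pool.Agent.H62T Pool.Agent.H60K
open scoped ENNReal NNReal

/-! ### Integration over the strip -/

theorem strip (S : Set ℂ) (hS : MeasurableSet S) (F : ℂ → ℝ) (H : ℝ → ℝ → ℝ≥0∞)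
    (hH : Measurable (Function.uncurry H)) (d0 : ℝ) (M : ℝ≥0∞) (hM : ∀ r, ∫⁻ y, H r y ≤ M)
    (hF : ∀ x ∈ S, |x.re| < d0 ∧ ENNReal.ofReal (F x) ≤ H x.re x.im) :
    ∫⁻ x in S, ENNReal.ofReal (F x) ≤ M * ENNReal.ofReal (2 * d0) := by
  have hm : Measurable (fun p : ℝ × ℝ =>
      (Set.Ioo (-d0) d0).indicator (fun r => H r p.2) p.1) := by
    have : (fun p : ℝ × ℝ => (Set.Ioo (-d0) d0).indicator (fun r => H r p.2) p.1)
        = (Set.Ioo (-d0) d0 ×ˢ (Set.univ : Set ℝ)).indicator (Function.uncurry H) := by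
      funext p
      by_cases hp : p.1 ∈ Set.Ioo (-d0) d0
      · rw [Set.indicator_of_mem hp, Set.indicator_of_mem (by exact ⟨hp, trivial⟩)]
        rfl
      · rw [Set.indicator_of_notMem hp, Set.indicator_of_notMem (fun h => hp h.1)]
    rw [this]
    exact hH.indicator (measurableSet_Ioo.prod MeasurableSet.univ)
  calc ∫⁻ x in S, ENNReal.ofReal (F x) ≤ ∫⁻ x in S, H x.re x.im :=
        setLIntegral_mono' hS (fun x hx => (hF x hx).2)
    _ = ∫⁻ x, S.indicator (fun x : ℂ => H x.re x.im) x := (lintegral_indicator hS _).symm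
    _ ≤ ∫⁻ x : ℂ, (Set.Ioo (-d0) d0).indicator (fun r => H r x.im) x.re := by
        apply lintegral_mono
        intro x
        by_cases hx : x ∈ S
        · have h1 : x.re ∈ Set.Ioo (-d0) d0 := abs_lt.1 (hF x hx).1
          simp only [Set.indicator_of_mem hx, Set.indicator_of_mem h1]
          exact le_rfl
        · rw [Set.indicator_of_notMem hx]
          exact bot_le
    _ = ∫⁻ p : ℝ × ℝ, (Set.Ioo (-d0) d0).indicator (fun r => H r p.2) p.1 :=
        Complex.volume_preserving_equiv_real_prod.lintegral_comp hm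
    _ = ∫⁻ r, ∫⁻ y, (Set.Ioo (-d0) d0).indicator (fun r => H r y) r := by
        rw [Measure.volume_eq_prod]
        exact lintegral_prod _ hm.aemeasurable
    _ ≤ ∫⁻ r, (Set.Ioo (-d0) d0).indicator (fun _ => M) r := by
        apply lintegral_mono
        intro r
        by_cases hr : r ∈ Set.Ioo (-d0) d0
        · simp only [Set.indicator_of_mem hr]
          exact hM r
        · simp only [Set.indicator_of_notMem hr, lintegral_zero]
          exact le_rfl
    _ = M * ENNReal.ofReal (2 * d0) := by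
        rw [lintegral_indicator measurableSet_Ioo, setLIntegral_const, Real.volume_Ioo]
        congr 2
        ring

/-- the Gaussian integral in one variable -/
theorem gauss1 (A κ t y0 : ℝ) (hA : 0 ≤ A) (hκ : 0 < κ) (ht : 0 < t) :
    ∫⁻ y : ℝ, ENNReal.ofReal (A * Real.exp (-(κ * (y - y0) ^ 2 / (4 * t))))
      = ENNReal.ofReal (A * √(4 * Real.pi * t / κ)) := by
  have hb : 0 < κ / (4 * t) := by positivity
  have e1 : (fun y : ℝ => A * Real.exp (-(κ * (y - y0) ^ 2 / (4 * t))))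
      = fun y : ℝ => (fun z : ℝ => A * Real.exp (-(κ / (4 * t)) * z ^ 2)) (y - y0) := by
    funext y
    simp only
    congr 2
    ring
  have hi0 : Integrable (fun z : ℝ => A * Real.exp (-(κ / (4 * t)) * z ^ 2)) :=
    (integrable_exp_neg_mul_sq hb).const_mul A
  have hi : Integrable (fun y : ℝ => A * Real.exp (-(κ * (y - y0) ^ 2 / (4 * t)))) := by
    rw [e1]
    exact hi0.comp_sub_right y0
  rw [← ofReal_integral_eq_lintegral_ofReal hi (ae_of_all _ fun y => by positivity)]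
  congr 1
  rw [e1, integral_sub_right_eq_self (fun z : ℝ => A * Real.exp (-(κ / (4 * t)) * z ^ 2)),
    integral_const_mul, integral_gaussian]
  congr 2
  field_simp


/-- the exponential integral in one variable -/
theorem exp1 (A c t : ℝ) (hA : 0 ≤ A) (hc : 0 < c) (ht : 0 < t) :
    ∫⁻ y : ℝ, (Set.Iic (0 : ℝ)).indicator
      (fun y => ENNReal.ofReal (A * Real.exp (2 * c * y / t))) y
      = ENNReal.ofReal (A * (t / (2 * c))) := by
  have ha : 0 < 2 * c / t := by positivity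
  have e1 : (fun y : ℝ => A * Real.exp (2 * c * y / t))
      = fun y : ℝ => A * Real.exp (2 * c / t * y) := by
    funext y
    congr 2
    ring
  have hi : IntegrableOn (fun y : ℝ => A * Real.exp (2 * c * y / t)) (Set.Iic 0) := by
    rw [e1]
    exact (integrableOn_exp_mul_Iic ha 0).const_mul A
  rw [lintegral_indicator measurableSet_Iic,
    ← ofReal_integral_eq_lintegral_ofReal hi (ae_of_all _ fun y => by positivity)]
  congr 1
  rw [e1, integral_const_mul, integral_exp_mul_Iic ha]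
  simp only [mul_zero, Real.exp_zero]
  rw [one_div_div]

/-- Gaussian bound -/
theorem gaussB (S : Set ℂ) (hS : MeasurableSet S) (f : ℂ → ℂ) (y0 : ℝ → ℝ) (hy0 : Measurable y0)
    (d0 κ L : ℝ) (hd0 : 0 < d0) (hκ : 0 < κ)
    (hf : ∀ x ∈ S, |x.re| < d0 ∧ L ^ 2 + κ * (x.im - y0 x.re) ^ 2 ≤ ‖f x‖ ^ 2) :
    ∃ C : ℝ, 0 ≤ C ∧ ∀ t : ℝ, 0 < t → ∫⁻ x in S, ENNReal.ofReal (G t (f x))
      ≤ ENNReal.ofReal (C / √t * Real.exp (-(L ^ 2 / (4 * t)))) := by
  refine ⟨2 * d0 * √(4 * Real.pi / κ) / (4 * Real.pi), by positivity, fun t ht => ?_⟩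
  have hA : 0 ≤ Real.exp (-(L ^ 2 / (4 * t))) / (4 * Real.pi * t) := by positivity
  have key := strip S hS (fun x => G t (f x))
    (fun r y => ENNReal.ofReal (Real.exp (-(L ^ 2 / (4 * t))) / (4 * Real.pi * t)
      * Real.exp (-(κ * (y - y0 r) ^ 2 / (4 * t))))) (by
        unfold Function.uncurry
        have h1 : Measurable fun p : ℝ × ℝ => y0 p.1 := hy0.comp measurable_fst
        fun_prop) d0
    (ENNReal.ofReal (Real.exp (-(L ^ 2 / (4 * t))) / (4 * Real.pi * t)
      * √(4 * Real.pi * t / κ))) (fun r => (gauss1 _ κ t (y0 r) hA hκ ht).le) (by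
        intro x hx
        refine ⟨(hf x hx).1, ENNReal.ofReal_le_ofReal ?_⟩
        have h1 := (hf x hx).2
        unfold G
        rw [div_mul_eq_mul_div, ← Real.exp_add]
        apply div_le_div_of_nonneg_right _ (by positivity)
        apply Real.exp_le_exp.2
        rw [neg_div, ← neg_add, neg_le_neg_iff, ← add_div]
        exact div_le_div_of_nonneg_right h1 (by positivity))
  refine key.trans (le_of_eq ?_)
  rw [← ENNReal.ofReal_mul (by positivity)]
  congr 1
  have e1 : √(4 * Real.pi * t / κ) = √(4 * Real.pi / κ) * √t := by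
    rw [← Real.sqrt_mul (by positivity)]
    congr 1
    ring
  have e2 : √t * √t = t := Real.mul_self_sqrt ht.le
  have h3 : √t ≠ 0 := (Real.sqrt_pos.2 ht).ne'
  rw [e1]
  field_simp
  rw [pow_two, e2]

/-- exponential bound -/
theorem expB (S : Set ℂ) (hS : MeasurableSet S) (f : ℂ → ℂ)
    (d0 c L : ℝ) (hd0 : 0 < d0) (hc : 0 < c)
    (hf : ∀ x ∈ S, |x.re| < d0 ∧ x.im ≤ 0 ∧ L ^ 2 - 8 * c * x.im ≤ ‖f x‖ ^ 2) :
    ∃ C : ℝ, 0 ≤ C ∧ ∀ t : ℝ, 0 < t → ∫⁻ x in S, ENNReal.ofReal (G t (f x))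
      ≤ ENNReal.ofReal (C * Real.exp (-(L ^ 2 / (4 * t)))) := by
  refine ⟨2 * d0 / (4 * Real.pi) / (2 * c), by positivity, fun t ht => ?_⟩
  have hA : 0 ≤ Real.exp (-(L ^ 2 / (4 * t))) / (4 * Real.pi * t) := by positivity
  have key := strip S hS (fun x => G t (f x))
    (fun _ y => (Set.Iic (0 : ℝ)).indicator
      (fun y => ENNReal.ofReal (Real.exp (-(L ^ 2 / (4 * t))) / (4 * Real.pi * t)
      * Real.exp (2 * c * y / t))) y) (by
        unfold Function.uncurry
        have h1 : Measurable ((Set.Iic (0 : ℝ)).indicator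
          (fun y => ENNReal.ofReal (Real.exp (-(L ^ 2 / (4 * t))) / (4 * Real.pi * t)
          * Real.exp (2 * c * y / t)))) :=
          Measurable.indicator (by fun_prop) measurableSet_Iic
        exact h1.comp measurable_snd) d0
    (ENNReal.ofReal (Real.exp (-(L ^ 2 / (4 * t))) / (4 * Real.pi * t)
      * (t / (2 * c)))) (fun r => (exp1 _ c t hA hc ht).le) (by
        intro x hx
        obtain ⟨h0, h1, h2⟩ := hf x hx
        refine ⟨h0, ?_⟩
        rw [Set.indicator_of_mem (show x.im ∈ Set.Iic (0 : ℝ) from h1)]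
        apply ENNReal.ofReal_le_ofReal
        unfold G
        rw [div_mul_eq_mul_div, ← Real.exp_add]
        apply div_le_div_of_nonneg_right _ (by positivity)
        apply Real.exp_le_exp.2
        have e3 : -(L ^ 2 / (4 * t)) + 2 * c * x.im / t = -(L ^ 2 - 8 * c * x.im) / (4 * t) := by
          field_simp
          ring
        rw [e3]
        apply div_le_div_of_nonneg_right _ (by positivity)
        linarith)
  refine key.trans (le_of_eq ?_)
  rw [← ENNReal.ofReal_mul (by positivity)]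
  congr 1
  field_simp


/-! ### Geometry -/

theorem nsq (z : ℂ) : ‖z‖ ^ 2 = z.re ^ 2 + z.im ^ 2 := by
  rw [Complex.sq_norm, Complex.normSq_apply]
  ring

theorem rf_re (α b : ℝ) (s : Fin 3) (x : ℂ) : (rf (uI α) (hI α b) s x).re
    = x.re - 2 * ((uI α s).re * x.re + (uI α s).im * x.im - hI α b s) * (uI α s).re := by
  simp [rf, ip]

theorem rf_im (α b : ℝ) (s : Fin 3) (x : ℂ) : (rf (uI α) (hI α b) s x).im
    = x.im - 2 * ((uI α s).re * x.re + (uI α s).im * x.im - hI α b s) * (uI α s).im := by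
  simp [rf, ip]

theorem n1 (α b : ℝ) (x : ℂ) : ‖x - g1 α b x‖ ^ 2 = La α b ^ 2
    + (2 * (-Real.cos α * x.re + Real.sin α * x.im) - b * Real.cos α) ^ 2 := by
  have h := Real.sin_sq_add_cos_sq α
  rw [nsq]
  simp only [g1, Complex.sub_re, Complex.sub_im, Complex.neg_re, Complex.neg_im,
    Complex.ofReal_re, Complex.ofReal_im, rf_re, rf_im, La]
  simp only [uI, hI, show (2 : Fin 3) ≠ 0 by decide, show (2 : Fin 3) ≠ 1 by decide, if_false]
  linear_combination ((2 * Real.sin α * x.re + 2 * Real.cos α * x.im - b * Real.sin α) ^ 2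
    - (2 * x.re + b) ^ 2 - 4 * x.im ^ 2) * h

theorem n2 (α b : ℝ) (x : ℂ) : ‖x - g2 α b x‖ ^ 2 = La α b ^ 2
    + (Real.cos α * (2 * x.re - b) + 2 * Real.sin α * x.im) ^ 2 := by
  have h := Real.sin_sq_add_cos_sq α
  rw [nsq]
  simp only [g2, Complex.sub_re, Complex.sub_im,
    Complex.ofReal_re, Complex.ofReal_im, rf_re, rf_im, La]
  simp only [uI, hI, show (0 : Fin 3) ≠ 1 by decide, if_false, if_true]
  linear_combination ((2 * Real.sin α * x.re - 2 * Real.cos α * x.im - 3 * b * Real.sin α) ^ 2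
    - (2 * x.re - b) ^ 2 - 4 * x.im ^ 2) * h

theorem n0 (α b : ℝ) (x : ℂ) : ‖x - g0 α b x‖ ^ 2 = La α b ^ 2 + 4 * x.im ^ 2
    - 8 * (b * Real.sin α * Real.cos α) * x.im := by
  have h := Real.sin_sq_add_cos_sq α
  rw [nsq]
  simp only [g0, Complex.sub_re, Complex.sub_im, La, lo]
  linear_combination (4 * b ^ 2 * Real.sin α ^ 2) * h

theorem nr1 (α b : ℝ) (x : ℂ) : ‖x - rf (uI α) (hI α b) 1 x‖ ^ 2 = 4 * x.im ^ 2 := by
  rw [nsq]
  simp only [Complex.sub_re, Complex.sub_im, rf_re, rf_im]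
  simp only [uI, hI, show (1 : Fin 3) ≠ 0 by decide, if_false, if_true]
  ring

theorem n02 (α b : ℝ) (x : ℂ) :
    ‖x - rf (uI α) (hI α b) 0 (rf (uI α) (hI α b) 2 x)‖ ^ 2
      = 4 * Real.sin α ^ 2 * (2 * Real.cos α * x.im - b * Real.sin α) ^ 2
        + 16 * Real.sin α ^ 2 * Real.cos α ^ 2 * x.re ^ 2 := by
  have h := Real.sin_sq_add_cos_sq α
  rw [nsq]
  simp only [Complex.sub_re, Complex.sub_im, rf_re, rf_im]
  simp only [uI, hI, show (0 : Fin 3) ≠ 1 by decide, show (2 : Fin 3) ≠ 0 by decide,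
    show (2 : Fin 3) ≠ 1 by decide, if_false, if_true]
  obtain ⟨k2, hk2⟩ : ∃ k2, k2 = 2 * Real.sin α * x.re + 2 * Real.cos α * x.im
    - b * Real.sin α := ⟨_, rfl⟩
  obtain ⟨k0, hk0⟩ : ∃ k0, k0 = -2 * Real.sin α * x.re + 2 * Real.cos α * x.im
    - b * Real.sin α + 2 * k2 * (Real.sin α ^ 2 - Real.cos α ^ 2) := ⟨_, rfl⟩
  have : (k2 * Real.sin α - k0 * Real.sin α) ^ 2 + (k2 * Real.cos α + k0 * Real.cos α) ^ 2
      = 4 * Real.sin α ^ 2 * (2 * Real.cos α * x.im - b * Real.sin α) ^ 2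
        + 16 * Real.sin α ^ 2 * Real.cos α ^ 2 * x.re ^ 2 := by
    have a1 : (k2 * Real.sin α - k0 * Real.sin α) ^ 2 + (k2 * Real.cos α + k0 * Real.cos α) ^ 2
        = k2 ^ 2 + k0 ^ 2 - 2 * (Real.sin α ^ 2 - Real.cos α ^ 2) * k0 * k2 := by
      linear_combination (k2 ^ 2 + k0 ^ 2) * h
    rw [a1, hk0, hk2]
    linear_combination (-2 * (2 * Real.cos α * x.im - b * Real.sin α) ^ 2
      - 2 * (2 * Real.sin α * x.re) ^ 2) * h
  rw [← this, hk0, hk2]
  ring


theorem meas_rf (α b : ℝ) (s : Fin 3) : Measurable (fun x : ℂ => rf (uI α) (hI α b) s x) := by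
  have : Continuous (fun x : ℂ => rf (uI α) (hI α b) s x) := by
    unfold rf ip
    fun_prop
  exact this.measurable

theorem meas_G (t : ℝ) (f : ℂ → ℂ) (hf : Measurable f) :
    Measurable (fun x => ENNReal.ofReal (G t (f x))) := by
  unfold G
  fun_prop

theorem add_bound (S : Set ℂ) (F₁ F₂ : ℂ → ℝ) (h1 : Measurable fun x => ENNReal.ofReal (F₁ x))
    (B₁ B₂ B : ℝ) (p1 : 0 ≤ B₁) (p2 : 0 ≤ B₂) (hB : B₁ + B₂ ≤ B)
    (b1 : ∫⁻ x in S, ENNReal.ofReal (F₁ x) ≤ ENNReal.ofReal B₁)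
    (b2 : ∫⁻ x in S, ENNReal.ofReal (F₂ x) ≤ ENNReal.ofReal B₂) :
    ∫⁻ x in S, ENNReal.ofReal (F₁ x + F₂ x) ≤ ENNReal.ofReal B :=
  calc ∫⁻ x in S, ENNReal.ofReal (F₁ x + F₂ x)
      ≤ ∫⁻ x in S, (ENNReal.ofReal (F₁ x) + ENNReal.ofReal (F₂ x)) :=
        lintegral_mono fun _ => ENNReal.ofReal_add_le
    _ = (∫⁻ x in S, ENNReal.ofReal (F₁ x)) + ∫⁻ x in S, ENNReal.ofReal (F₂ x) :=
        lintegral_add_left h1 _
    _ ≤ ENNReal.ofReal B₁ + ENNReal.ofReal B₂ := add_le_add b1 b2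
    _ = ENNReal.ofReal (B₁ + B₂) := (ENNReal.ofReal_add p1 p2).symm
    _ ≤ ENNReal.ofReal B := ENNReal.ofReal_le_ofReal hB

theorem div_sqrt_le (C t : ℝ) (hC : 0 ≤ C) (ht : 0 < t) (ht1 : t < 1) : C / √t ≤ C / t := by
  have h1 : 0 < √t := Real.sqrt_pos.2 ht
  have h2 : √t * √t = t := Real.mul_self_sqrt ht.le
  have h3 : √t ≤ 1 := Real.sqrt_le_one.2 ht1.le
  apply div_le_div_of_nonneg_left hC ht
  nlinarith only [h2, h1, h3]

theorem erf (hlen : LenStatement) : ErfStatement := by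
  intro α b e d0 hα hα2 hb he hd0 hez
  obtain ⟨hLa, -, -, hzq, hqt, -⟩ := hlen α b hα hα2 hb
  have hα0 : 0 < α := lt_of_lt_of_le (by positivity) hα
  have hs : 0 < Real.sin α := Real.sin_pos_of_pos_of_lt_pi hα0 (by linarith [Real.pi_pos])
  have hc : 0 < Real.cos α := Real.cos_pos_of_mem_Ioo ⟨by linarith [Real.pi_pos], hα2⟩
  have hc2 : Real.cos α ≤ 1 / 2 := by
    rw [← Real.cos_pi_div_three]
    exact Real.cos_le_cos_of_nonneg_of_le_pi (by positivity) (by linarith [Real.pi_pos]) hα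
  -- the half planes
  have m0 : MeasurableSet {x : ℂ | |x.re| < d0} := measurableSet_lt (by fun_prop) (by fun_prop)
  have mg0 : Measurable (fun x : ℂ => x - g0 α b x) := by
    have : Continuous (fun x : ℂ => x - g0 α b x) := by
      have e1 : (fun x : ℂ => x - g0 α b x) = fun x : ℂ => ((lo α b : ℝ) : ℂ)
          + ((2 * x.im - 2 * (b * Real.sin α * Real.cos α) : ℝ) : ℂ) * Complex.I := by
        funext x
        apply Complex.ext
        · simp only [g0, Complex.sub_re, Complex.add_re, Complex.ofReal_re, Complex.mul_re,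
            Complex.ofReal_im, Complex.I_re, Complex.I_im]
          ring
        · simp only [g0, Complex.sub_im, Complex.add_im, Complex.ofReal_re, Complex.mul_im,
            Complex.ofReal_im, Complex.I_re, Complex.I_im]
          ring
      rw [e1]
      fun_prop
    exact this.measurable
  have mg1 : Measurable (fun x : ℂ => x - g1 α b x) := by
    unfold g1
    exact measurable_id.sub (measurable_const.sub (meas_rf α b 2))
  have mg2 : Measurable (fun x : ℂ => x - g2 α b x) := by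
    unfold g2
    exact measurable_id.sub ((meas_rf α b 0).comp (measurable_const.sub measurable_id))
  have mr1 : Measurable (fun x : ℂ => x - rf (uI α) (hI α b) 1 x) :=
    measurable_id.sub (meas_rf α b 1)
  have m02 : Measurable (fun x : ℂ => x - rf (uI α) (hI α b) 0 (rf (uI α) (hI α b) 2 x)) :=
    measurable_id.sub ((meas_rf α b 0).comp (meas_rf α b 2))
  -- (1)
  obtain ⟨C1, hC1, b1⟩ := gaussB {x : ℂ | |x.re| < d0} m0 (fun x => x - g1 α b x)
    (fun r => (2 * Real.cos α * r + b * Real.cos α) / (2 * Real.sin α)) (by fun_prop)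
    d0 (4 * Real.sin α ^ 2) (La α b) hd0 (by positivity) (by
      intro x hx
      refine ⟨hx, le_of_eq ?_⟩
      rw [n1]
      field_simp
      ring)
  obtain ⟨C2, hC2, b2⟩ := gaussB {x : ℂ | |x.re| < d0} m0 (fun x => x - g2 α b x)
    (fun r => (-(Real.cos α * (2 * r - b))) / (2 * Real.sin α)) (by fun_prop)
    d0 (4 * Real.sin α ^ 2) (La α b) hd0 (by positivity) (by
      intro x hx
      refine ⟨hx, le_of_eq ?_⟩
      rw [n2]
      field_simp
      ring)
  -- (2)
  have ms2 : MeasurableSet {x : ℂ | |x.re| < d0 ∧ x.im ≤ 0} :=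
    m0.inter (measurableSet_le Complex.measurable_im measurable_const)
  obtain ⟨C3, hC3, b3⟩ := expB {x : ℂ | |x.re| < d0 ∧ x.im ≤ 0} ms2 (fun x => x - g0 α b x)
    d0 (b * Real.sin α * Real.cos α) (La α b) hd0 (by positivity) (by
      intro x hx
      refine ⟨hx.1, hx.2, ?_⟩
      rw [n0]
      linarith only [sq_nonneg x.im])
  -- (3)
  obtain ⟨h0, hh0⟩ : ∃ h0, h0 = b / 2 * Real.tan α := ⟨_, rfl⟩
  have hh1 : 2 * Real.cos α * h0 = b * Real.sin α := by
    rw [hh0, Real.tan_eq_sin_div_cos]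
    field_simp
  have hh2 : 0 < h0 - e := by
    have : b * Real.tan α = 2 * h0 := by rw [hh0]; ring
    linarith
  have hL2 : (Lz α b - 2 * e) ^ 2 ≤ 4 * (h0 - e) ^ 2 := by
    have h3 : b * Real.tan α = 2 * h0 := by rw [hh0]; ring
    have h4 : Lz α b - 2 * e ≤ 2 * (h0 - e) := by linarith
    have h5 : 0 ≤ Lz α b - 2 * e := by linarith
    nlinarith only [hez, hzq, hqt, hh0]
  have ms3 : MeasurableSet {x : ℂ | |x.re| < d0 ∧ b / 2 * Real.tan α - e ≤ x.im ∧ 0 ≤ x.im} :=
    m0.inter ((measurableSet_le measurable_const Complex.measurable_im).inter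
      (measurableSet_le measurable_const Complex.measurable_im))
  obtain ⟨C4, hC4, b4⟩ := gaussB {x : ℂ | |x.re| < d0 ∧ b / 2 * Real.tan α - e ≤ x.im ∧ 0 ≤ x.im}
    ms3 (fun x => x - g0 α b x) (fun _ => h0 - e) measurable_const
    d0 2 (Lz α b - 2 * e) hd0 (by norm_num) (by
      rintro x ⟨hx1, hx2, hx3⟩
      refine ⟨hx1, ?_⟩
      rw [← hh0] at hx2
      rw [n0]
      have e1 : La α b ^ 2 + 4 * x.im ^ 2 - 8 * (b * Real.sin α * Real.cos α) * x.im
          = 4 * (x.im ^ 2 - 4 * Real.cos α ^ 2 * h0 * (x.im - h0)) := by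
        unfold La
        have : b * Real.sin α = 2 * Real.cos α * h0 := hh1.symm
        rw [show 2 * b * Real.sin α = 2 * (b * Real.sin α) by ring, this]
        ring
      rw [e1]
      refine le_trans (add_le_add_left hL2 _) ?_
      have hq : 4 * Real.cos α ^ 2 ≤ 1 := by nlinarith only [hc2, hc]
      have hh3 : 0 < h0 := by linarith
      rcases le_total x.im h0 with h6 | h6
      · have h7 : 0 ≤ 4 * Real.cos α ^ 2 * h0 * (h0 - x.im) :=
          mul_nonneg (by positivity) (by linarith)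
        nlinarith only [h7, mul_nonneg (sub_nonneg.2 hx2) hh2.le]
      · have h7 : 4 * Real.cos α ^ 2 * (h0 * (x.im - h0)) ≤ 1 * (h0 * (x.im - h0)) :=
          mul_le_mul_of_nonneg_right hq (mul_nonneg hh3.le (by linarith))
        nlinarith only [h7, hh2, h6, sq_nonneg (x.im - h0 - e), mul_nonneg (sub_nonneg.2 h6) he.le,
          mul_nonneg he.le hh2.le, sq_nonneg (x.im - h0)])
  obtain ⟨C5, hC5, b5⟩ := gaussB {x : ℂ | |x.re| < d0 ∧ b / 2 * Real.tan α - e ≤ x.im ∧ 0 ≤ x.im}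
    ms3 (fun x => x - rf (uI α) (hI α b) 1 x) (fun _ => h0 - e) measurable_const
    d0 4 (Lz α b - 2 * e) hd0 (by norm_num) (by
      rintro x ⟨hx1, hx2, hx3⟩
      refine ⟨hx1, ?_⟩
      rw [← hh0] at hx2
      rw [nr1]
      refine le_trans (add_le_add_left hL2 _) ?_
      linarith only [mul_nonneg (sub_nonneg.2 hx2) hh2.le])
  -- (4)
  have ms4 : MeasurableSet {x : ℂ | |x.re| < d0 ∧
        Lz α b - e ≤ ‖x - rf (uI α) (hI α b) 0 (rf (uI α) (hI α b) 2 x)‖} :=
    m0.inter (measurableSet_le measurable_const m02.norm)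
  obtain ⟨θ, hθ⟩ : ∃ θ, θ = 1 - (Lz α b - 2 * e) ^ 2 / (Lz α b - e) ^ 2 := ⟨_, rfl⟩
  have hp1 : 0 < Lz α b - 2 * e := by linarith
  have hp2 : 0 < Lz α b - e := by linarith
  have hθ1 : (1 - θ) * (Lz α b - e) ^ 2 = (Lz α b - 2 * e) ^ 2 := by
    rw [hθ]
    field_simp
    ring
  have hθ2 : 0 < θ := by
    rw [hθ, sub_pos, div_lt_one (by positivity)]
    nlinarith only [he, hez]
  have hθ3 : 0 ≤ 1 - θ := by
    rw [hθ]
    have : 0 ≤ (Lz α b - 2 * e) ^ 2 / (Lz α b - e) ^ 2 := by positivity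
    linarith
  obtain ⟨C6, hC6, b6⟩ := gaussB {x : ℂ | |x.re| < d0 ∧
        Lz α b - e ≤ ‖x - rf (uI α) (hI α b) 0 (rf (uI α) (hI α b) 2 x)‖}
    ms4 (fun x => x - rf (uI α) (hI α b) 0 (rf (uI α) (hI α b) 2 x)) (fun _ => h0)
    measurable_const d0 (θ * (16 * Real.sin α ^ 2 * Real.cos α ^ 2)) (Lz α b - 2 * e) hd0
    (by positivity) (by
      rintro x ⟨hx1, hx2⟩
      refine ⟨hx1, ?_⟩
      obtain ⟨D, hD⟩ : ∃ D, D = ‖x - rf (uI α) (hI α b) 0 (rf (uI α) (hI α b) 2 x)‖ ^ 2 :=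
        ⟨_, rfl⟩
      have h6 : (Lz α b - e) ^ 2 ≤ D := by
        rw [hD]
        exact pow_le_pow_left₀ hp2.le hx2 2
      have h7 : 16 * Real.sin α ^ 2 * Real.cos α ^ 2 * (x.im - h0) ^ 2 ≤ D := by
        rw [hD, n02, ← hh1]
        have : 0 ≤ 16 * Real.sin α ^ 2 * Real.cos α ^ 2 * x.re ^ 2 := by positivity
        linarith only [this]
      rw [← hD, ← hθ1]
      linarith only [mul_le_mul_of_nonneg_left h6 hθ3, mul_le_mul_of_nonneg_left h7 hθ2.le])
  refine ⟨C1 + C2 + C3 + C4 + C5 + C6, by positivity, fun t ht ht1 => ⟨?_, ?_, ?_, ?_⟩⟩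
  · have hX : 0 ≤ Real.exp (-(La α b ^ 2 / (4 * t))) / √t := by positivity
    refine add_bound _ _ _ (meas_G t _ mg1) _ _ _ (by positivity) (by positivity) ?_
      (b1 t ht) (b2 t ht)
    have : (C1 + C2 + C3 + C4 + C5 + C6) / √t * Real.exp (-(La α b ^ 2 / (4 * t)))
        - (C1 / √t * Real.exp (-(La α b ^ 2 / (4 * t)))
        + C2 / √t * Real.exp (-(La α b ^ 2 / (4 * t))))
        = (C3 + C4 + C5 + C6) * (Real.exp (-(La α b ^ 2 / (4 * t))) / √t) := by ring
    have h9 : 0 ≤ (C3 + C4 + C5 + C6) * (Real.exp (-(La α b ^ 2 / (4 * t))) / √t) := by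
      positivity
    linarith
  · refine (b3 t ht).trans (ENNReal.ofReal_le_ofReal ?_)
    apply mul_le_mul_of_nonneg_right _ (Real.exp_pos _).le
    linarith
  · have d4 := div_sqrt_le C4 t hC4 ht ht1
    have d5 := div_sqrt_le C5 t hC5 ht ht1
    refine add_bound _ _ _ (meas_G t _ mg0) _ _ _ (by positivity) (by positivity) ?_
      (b4 t ht) (b5 t ht)
    rw [← add_mul]
    apply mul_le_mul_of_nonneg_right _ (Real.exp_pos _).le
    refine (add_le_add d4 d5).trans ?_
    rw [← add_div]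
    apply div_le_div_of_nonneg_right _ ht.le
    linarith only [hC1, hC2, hC3, hC6]
  · have d6 := div_sqrt_le C6 t hC6 ht ht1
    refine (b6 t ht).trans (ENNReal.ofReal_le_ofReal ?_)
    apply mul_le_mul_of_nonneg_right _ (Real.exp_pos _).le
    refine d6.trans ?_
    apply div_le_div_of_nonneg_right _ ht.le
    linarith

end Pool.Agent.XQ.GI.H67

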