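import Pool.Agent.Helper16_XQ.StmtG
import Pool.Agent.Helper72_AEU.ACT
import Pool.Agent.Helper69_AEU.Per
import Pool.Agent.Helper69_AEU.Tools
import Pool.Agent.Helper69_AEU.Lam

/-!
Squad XQ (MP_5b0138_an), modules PRX, PRD, FCX: bodies touching two parallel sides of `Q`.
-/

set_option autoImplicit false

namespace Pool.Agent.XQ.H67

open MeasureTheory Complex Filter Topology Pool.Agent.H62T
open Pool.Agent.H16F (Sublin)
open Pool.Agent.AEU Pool.Agent.XQ

/-! ### Planar algebra -/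

theorem ip_add (z x y : ℂ) : ip z (x + y) = ip z x + ip z y := by
  simp only [ip, add_re, add_im]; ring

theorem ip_sub (z x y : ℂ) : ip z (x - y) = ip z x - ip z y := by
  simp only [ip, sub_re, sub_im]; ring

theorem ip_mul_ofReal (z : ℂ) (c : ℝ) (x : ℂ) : ip z ((c : ℂ) * x) = c * ip z x := by
  simp only [ip, re_ofReal_mul, im_ofReal_mul]; ring

theorem ip_neg_left (z x : ℂ) : ip (-z) x = -ip z x := by
  simp only [ip, neg_re, neg_im]; ring

theorem ip_neg_right (z x : ℂ) : ip z (-x) = -ip z x := by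
  simp only [ip, neg_re, neg_im]; ring

theorem ip_self (z : ℂ) : ip z z = ‖z‖ ^ 2 := by
  rw [← normSq_eq_norm_sq, normSq_apply, ip]

theorem ip_self_one {z : ℂ} (h : ‖z‖ = 1) : ip z z = 1 := by
  rw [ip_self, h]; norm_num

theorem ip_I_self (z : ℂ) : ip z (I * z) = 0 := by
  simp only [ip, mul_re, mul_im, I_re, I_im]; ring

theorem ip_I (s a : ℂ) : ip s (I * a) = -dt s a := by
  simp only [ip, dt, mul_re, mul_im, I_re, I_im]; ring

theorem norm_I_mul {z : ℂ} (h : ‖z‖ = 1) : ‖I * z‖ = 1 := by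
  rw [norm_mul, norm_I, one_mul, h]

theorem norm_sq_add (z w : ℂ) (t : ℝ) :
    ‖z + (t : ℂ) * w‖ ^ 2 = ‖z‖ ^ 2 + 2 * t * ip w z + t ^ 2 * ‖w‖ ^ 2 := by
  rw [← ip_self, ← ip_self, ← ip_self]
  simp only [ip, add_re, add_im, re_ofReal_mul, im_ofReal_mul]
  ring

theorem sq_re_im {u : ℂ} (h : ‖u‖ = 1) : u.re * u.re + u.im * u.im = 1 := by
  have := ip_self_one h
  simpa [ip] using this

/-- decomposition of a vector -/
theorem decomp {u : ℂ} (h : ‖u‖ = 1) (z : ℂ) :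
    z = ((ip u z : ℝ) : ℂ) * u + ((ip (I * u) z : ℝ) : ℂ) * (I * u) := by
  have e := sq_re_im h
  apply Complex.ext
  · simp only [ip, add_re, mul_re, mul_im, I_re, I_im, ofReal_re, ofReal_im]
    linear_combination (-z.re) * e
  · simp only [ip, add_im, mul_re, mul_im, I_re, I_im, ofReal_re, ofReal_im]
    linear_combination (-z.im) * e

/-! ### Points of a polygon -/

/-- data of two parallel sides -/
structure Par (Q : Finset HP) (a a' : HP) : Prop where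
  pg : Pg Q
  mem : a ∈ Q
  mem' : a' ∈ Q
  ne : a ≠ a'
  opp : a'.1 = -a.1

theorem Par.symm {Q : Finset HP} {a a' : HP} (h : Par Q a a') : Par Q a' a :=
  ⟨h.pg, h.mem', h.mem, h.ne.symm, by rw [h.opp, neg_neg]⟩

theorem Par.pos {Q : Finset HP} {a a' : HP} (h : Par Q a a') : 0 < a.2 + a'.2 := by
  obtain ⟨z, hz, hz'⟩ := h.pg.side a' h.mem'
  have h1 := hz' a h.mem h.ne
  rw [h.opp, ip_neg_left] at hz
  linarith

/-- the line `a` is not met by the points of the line `a'` -/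
theorem Par.off {Q : Finset HP} {a a' : HP} (h : Par Q a a') {x : ℂ} (hx : ip a.1 x = a.2) :
    ip a'.1 x < a'.2 := by
  have := h.pos
  rw [h.opp, ip_neg_left]
  linarith

/-- a pair of points on the two sides -/
structure Pt (Q : Finset HP) (a a' : HP) (x y : ℂ) : Prop where
  cx : x ∈ Cl Q
  cy : y ∈ Cl Q
  ax : ip a.1 x = a.2
  ay : ip a'.1 y = a'.2

theorem Pt.symm {Q : Finset HP} {a a' : HP} {x y : ℂ} (h : Pt Q a a' x y) : Pt Q a' a y x :=
  ⟨h.cy, h.cx, h.ay, h.ax⟩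

/-- a shortest pair -/
def Mn (Q : Finset HP) (a a' : HP) (x y : ℂ) : Prop :=
  Pt Q a a' x y ∧ ∀ x' y', Pt Q a a' x' y' → ‖x - y‖ ≤ ‖x' - y'‖

theorem Mn.symm {Q : Finset HP} {a a' : HP} {x y : ℂ} (h : Mn Q a a' x y) : Mn Q a' a y x := by
  refine ⟨h.1.symm, fun x' y' h' => ?_⟩
  have := h.2 y' x' h'.symm
  rwa [norm_sub_rev x y, norm_sub_rev y' x'] at this

theorem cl_closed (Q : Finset HP) : IsClosed (Cl Q) := by
  have e : Cl Q = ⋂ s ∈ Q, {x | ip s.1 x ≤ s.2} := by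
    ext x; simp [Cl]
  rw [e]
  refine isClosed_biInter fun s _ => ?_
  apply isClosed_le _ continuous_const
  unfold ip
  fun_prop

theorem ip_cont (z : ℂ) : Continuous (ip z) := by
  unfold ip
  fun_prop

theorem cl_convex (Q : Finset HP) {x y : ℂ} (hx : x ∈ Cl Q) (hy : y ∈ Cl Q) {t : ℝ} (h0 : 0 ≤ t)
    (h1 : t ≤ 1) : x + (t : ℂ) * (y - x) ∈ Cl Q := by
  intro s hs
  have e1 := hx s hs
  have e2 := hy s hs
  rw [ip_add, ip_mul_ofReal, ip_sub]
  nlinarith

/-- the shortest pair exists -/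
theorem exists_mn {Q : Finset HP} {a a' : HP} (hc : IsCompact (Cl Q)) {x₁ y₁ : ℂ}
    (h1 : Pt Q a a' x₁ y₁) : ∃ x y, Mn Q a a' x y := by
  have hK : IsCompact {p : ℂ × ℂ | Pt Q a a' p.1 p.2} := by
    have e : {p : ℂ × ℂ | Pt Q a a' p.1 p.2} = (Cl Q ×ˢ Cl Q) ∩
        ({p : ℂ × ℂ | ip a.1 p.1 = a.2} ∩ {p : ℂ × ℂ | ip a'.1 p.2 = a'.2}) := by
      ext p
      constructor
      · intro h
        exact ⟨⟨h.cx, h.cy⟩, h.ax, h.ay⟩
      · rintro ⟨⟨h1, h2⟩, h3, h4⟩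
        exact ⟨h1, h2, h3, h4⟩
    rw [e]
    refine (hc.prod hc).inter_right (IsClosed.inter ?_ ?_)
    · exact isClosed_eq ((ip_cont _).comp continuous_fst) continuous_const
    · exact isClosed_eq ((ip_cont _).comp continuous_snd) continuous_const
  obtain ⟨p, hp, hmin⟩ := hK.exists_isMinOn ⟨(x₁, y₁), h1⟩
    (f := fun p : ℂ × ℂ => ‖p.1 - p.2‖) (by fun_prop)
  exact ⟨p.1, p.2, hp, fun x' y' h' => hmin (a := (x', y')) h'⟩

/-- a vertex on the side `a` -/
theorem vx_on {Q : Finset HP} (vxx : VxxStatement) (hQ : Pg Q) {a : HP} (ha : a ∈ Q) {x : ℂ}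
    (hx : ip a.1 x = a.2) (hv : Vx Q x) : ∃ s, VxOf Q a s x := by
  obtain ⟨h1, _, _, _, h5, _⟩ := vxx Q hQ
  obtain ⟨s, t, hst⟩ := hv
  rcases h1 s t x hst a ha hx with rfl | rfl
  · exact ⟨t, hst⟩
  · exact ⟨s, (h5 _ _ _ hst).2.1⟩

/-- a point inside the side `a` can be moved in both directions -/
theorem move {Q : Finset HP} (vxx : VxxStatement) (hQ : Pg Q) {a : HP} (ha : a ∈ Q) {x : ℂ}
    (hxQ : x ∈ Cl Q) (hx : ip a.1 x = a.2) (hv : ¬ Vx Q x) :
    ∀ᶠ t : ℝ in 𝓝 0, x + (t : ℂ) * (I * a.1) ∈ Cl Q := by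
  obtain ⟨_, _, _, _, _, h6, _⟩ := vxx Q hQ
  have key : ∀ s ∈ Q, ∀ᶠ t : ℝ in 𝓝 0, ip s.1 (x + (t : ℂ) * (I * a.1)) ≤ s.2 := by
    intro s hs
    by_cases hsa : s = a
    · subst hsa
      refine Eventually.of_forall fun t => ?_
      rw [ip_add, ip_mul_ofReal, ip_I_self, hx]
      simp
    · have h7 := h6 x hxQ a ha hx hv s hs hsa
      have hc : Continuous fun t : ℝ => ip s.1 (x + (t : ℂ) * (I * a.1)) :=
        (ip_cont _).comp (by fun_prop)
      have h8 : ip s.1 (x + ((0 : ℝ) : ℂ) * (I * a.1)) < s.2 := by simpa using h7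
      exact (hc.continuousAt.eventually_lt continuousAt_const h8).mono fun t ht => ht.le
  have := (Finset.eventually_all Q).2 key
  exact this

/-- one direction is free at every point of the side `a` -/
theorem free {Q : Finset HP} (vxx : VxxStatement) (hQ : Pg Q) {a : HP} (ha : a ∈ Q) {x : ℂ}
    (hxQ : x ∈ Cl Q) (hx : ip a.1 x = a.2) : ∃ t : ℝ, t ≠ 0 ∧ x + (t : ℂ) * (I * a.1) ∈ Cl Q := by
  by_cases hv : Vx Q x
  · obtain ⟨s, hs⟩ := vx_on vxx hQ ha hx hv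
    obtain ⟨z, hz, hz'⟩ := hQ.side a ha
    have hzQ : z ∈ Cl Q := by
      intro t ht
      by_cases h : t = a
      · rw [h, hz]
      · exact (hz' t ht h).le
    have hne : z ≠ x := by
      rintro rfl
      have := hz' s hs.mem₂ hs.ne.symm
      exact absurd hs.on₂ this.ne
    have hu := hQ.unit a ha
    have e := decomp hu (z - x)
    have e0 : ip a.1 (z - x) = 0 := by rw [ip_sub, hz, hx]; ring
    rw [e0, ofReal_zero, zero_mul, zero_add] at e
    refine ⟨ip (I * a.1) (z - x), ?_, ?_⟩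
    · intro h0
      rw [h0, ofReal_zero, zero_mul] at e
      exact hne (sub_eq_zero.1 e)
    · rw [← e]
      simpa using hzQ
  · have h1 := move vxx hQ ha hxQ hx hv
    rw [Metric.eventually_nhds_iff] at h1
    obtain ⟨ε, hε, h2⟩ := h1
    exact ⟨ε / 2, by positivity, h2 (by
      rw [Real.dist_eq, sub_zero, abs_of_pos (by positivity)]; linarith)⟩

/-- between a point and another one of the side -/
theorem between {Q : Finset HP} {x u : ℂ} {t : ℝ} (hx : x ∈ Cl Q)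
    (ht : x + (t : ℂ) * u ∈ Cl Q) {r : ℝ} (h0 : 0 ≤ r) (h1 : r ≤ 1) :
    x + ((r * t : ℝ) : ℂ) * u ∈ Cl Q := by
  have := cl_convex Q hx ht h0 h1
  have e : x + (r : ℂ) * (x + (t : ℂ) * u - x) = x + ((r * t : ℝ) : ℂ) * u := by
    push_cast; ring
  rwa [e] at this

/-! ### Shortest pairs -/

theorem sign_of_min {c t : ℝ} (h : ∀ r : ℝ, 0 ≤ r → r ≤ 1 → 0 ≤ 2 * (r * t) * c + (r * t) ^ 2) :
    0 ≤ t * c := by
  by_contra hcon
  push Not at hcon
  rcases eq_or_ne t 0 with rfl | ht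
  · simp at hcon
  have ht2 : 0 < t ^ 2 := by positivity
  set r : ℝ := min 1 (-(t * c) / t ^ 2) with hr
  have hr0 : 0 < r := lt_min one_pos (div_pos (by linarith) ht2)
  have hr1 : r ≤ 1 := min_le_left _ _
  have hr2 : r * t ^ 2 ≤ -(t * c) := by
    have := min_le_right 1 (-(t * c) / t ^ 2)
    rw [← hr] at this
    rwa [le_div_iff₀ ht2] at this
  have h1 := h r hr0.le hr1
  have h2 : 2 * (r * t) * c + (r * t) ^ 2 = r * (2 * (t * c) + r * t ^ 2) := by ring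
  rw [h2] at h1
  have h3 : 2 * (t * c) + r * t ^ 2 < 0 := by linarith
  nlinarith

/-- if the point `x` of a shortest pair can be moved in the direction `t`, the angle is not acute -/
theorem mn_dir {Q : Finset HP} {a a' : HP} (hp : Par Q a a') {x y : ℂ} (h : Mn Q a a' x y) {t : ℝ}
    (ht : x + (t : ℂ) * (I * a.1) ∈ Cl Q) : 0 ≤ t * ip (I * a.1) (x - y) := by
  apply sign_of_min
  intro r h0 h1
  have h2 := between h.1.cx ht h0 h1
  have h3 := h.2 (x + ((r * t : ℝ) : ℂ) * (I * a.1)) y ⟨h2, h.1.cy, by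
    rw [ip_add, ip_mul_ofReal, ip_I_self, h.1.ax]; ring, h.1.ay⟩
  have e : x + ((r * t : ℝ) : ℂ) * (I * a.1) - y = (x - y) + ((r * t : ℝ) : ℂ) * (I * a.1) := by
    ring
  rw [e] at h3
  have h4 : ‖x - y‖ ^ 2 ≤ ‖(x - y) + ((r * t : ℝ) : ℂ) * (I * a.1)‖ ^ 2 := by
    have := norm_nonneg (x - y)
    gcongr
  rw [norm_sq_add, norm_I_mul (hp.pg.unit a hp.mem)] at h4
  linarith

theorem mn_perp_of_nvx {Q : Finset HP} (vxx : VxxStatement) {a a' : HP} (hp : Par Q a a') {x y : ℂ}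
    (h : Mn Q a a' x y) (hv : ¬ Vx Q x) : ip (I * a.1) (x - y) = 0 := by
  have h1 := move vxx hp.pg hp.mem h.1.cx h.1.ax hv
  rw [Metric.eventually_nhds_iff] at h1
  obtain ⟨ε, hε, h2⟩ := h1
  have h3 := mn_dir hp h (h2 (y := ε / 2) (by
    rw [Real.dist_eq, sub_zero, abs_of_pos (by positivity)]; linarith))
  have h4 := mn_dir hp h (h2 (y := -(ε / 2)) (by
    rw [Real.dist_eq, sub_zero, abs_neg, abs_of_pos (by positivity)]; linarith))
  have h5 : 0 < ε / 2 := by positivity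
  nlinarith

/-- a shortest pair is perpendicular, or a diagonal -/
theorem mn_cases {Q : Finset HP} (vxx : VxxStatement) {a a' : HP} (hp : Par Q a a') {x y : ℂ}
    (h : Mn Q a a' x y) : ip (I * a.1) (x - y) = 0 ∨
      ∃ s s', s ≠ s' ∧ VxOf Q a s x ∧ VxOf Q a' s' y := by
  by_cases hx : Vx Q x
  swap
  · exact Or.inl (mn_perp_of_nvx vxx hp h hx)
  by_cases hy : Vx Q y
  swap
  · left
    have h1 := mn_perp_of_nvx vxx hp.symm h.symm hy
    rw [hp.opp, mul_neg, ip_neg_left, ip_sub] at h1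
    rw [ip_sub]
    linarith
  obtain ⟨s, hs⟩ := vx_on vxx hp.pg hp.mem h.1.ax hx
  obtain ⟨s', hs'⟩ := vx_on vxx hp.pg hp.mem' h.1.ay hy
  by_cases hss : s = s'
  swap
  · exact Or.inr ⟨s, s', hss, hs, hs'⟩
  left
  subst hss
  obtain ⟨t, ht0, ht⟩ := free vxx hp.pg hp.mem h.1.cx h.1.ax
  obtain ⟨t', ht0', ht'⟩ := free vxx hp.pg hp.mem' h.1.cy h.1.ay
  have e1 := mn_dir hp h ht
  have e2 := mn_dir hp.symm h.symm ht'
  have e3 := ht s hs.mem₂
  have e4 := ht' s hs.mem₂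
  rw [ip_add, ip_mul_ofReal, hs.on₂] at e3
  rw [ip_add, ip_mul_ofReal, hs'.on₂, hp.opp, mul_neg, ip_neg_right] at e4
  rw [hp.opp, mul_neg, ip_neg_left] at e2
  have e5 : ip (I * a.1) (y - x) = -ip (I * a.1) (x - y) := by
    rw [ip_sub, ip_sub]; ring
  rw [e5] at e2
  have hd : dt a.1 s.1 ≠ 0 := ((vxx Q hp.pg).2.2.2.2.1 _ _ _ hs).2.2
  have hd' : ip s.1 (I * a.1) ≠ 0 := by
    rw [ip_I]
    intro h0
    apply hd
    simp only [dt] at h0 ⊢
    linarith
  set c := ip (I * a.1) (x - y)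
  set m := ip s.1 (I * a.1)
  by_contra hc
  have hc2 : 0 < c ^ 2 := by positivity
  have hm2 : 0 < m ^ 2 := by positivity
  have htt : 0 < t ^ 2 := by positivity
  have htt' : 0 < t' ^ 2 := by positivity
  -- e1: 0 ≤ t c, e2: 0 ≤ t' c, e3: t m ≤ 0, e4: -t' m ≤ 0
  have f1 : 0 < t * c := lt_of_le_of_ne e1 (by
    intro h0; rcases mul_eq_zero.1 h0.symm with h0 | h0 <;> contradiction)
  have f2 : 0 < t' * c := by
    have : 0 ≤ t' * c := by linarith
    exact lt_of_le_of_ne this (by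
      intro h0; rcases mul_eq_zero.1 h0.symm with h0 | h0 <;> contradiction)
  have f3 : t * m < 0 := lt_of_le_of_ne (by linarith) (by
    intro h0; rcases mul_eq_zero.1 h0 with h0 | h0 <;> contradiction)
  have f4 : 0 < t' * m := lt_of_le_of_ne (by linarith) (by
    intro h0; rcases mul_eq_zero.1 h0.symm with h0 | h0 <;> contradiction)
  have f5 : 0 < t * c * (t' * c) := mul_pos f1 f2
  have f6 : t * m * (t' * m) < 0 := mul_neg_of_neg_of_pos f3 f4
  have f7 : 0 < t * t' := by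
    have : t * c * (t' * c) = t * t' * c ^ 2 := by ring
    rw [this] at f5
    exact (pos_iff_pos_of_mul_pos f5).2 hc2
  have : t * m * (t' * m) = t * t' * m ^ 2 := by ring
  rw [this] at f6
  have := mul_pos f7 hm2
  linarith

/-! ### Segments as bodies -/

theorem seg_body {Q : Finset HP} {x y : ℂ} (hx : x ∈ Cl Q) (hy : y ∈ Cl Q) :
    Sublin (hf ![x, y]) ∧ Fits Q (hf ![x, y]) ∧ In x (hf ![x, y]) ∧ In y (hf ![x, y]) ∧
      lam (hf ![x, y]) = 2 * ‖x - y‖ ∧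
      ∀ s ∈ Q, (ip s.1 x = s.2 ∨ ip s.1 y = s.2) → s ∈ touch Q (hf ![x, y]) := by
  obtain ⟨h1, h2, -, -, -, -⟩ := AEU.H69.hul 1 ![x, y]
  obtain ⟨m1, m2⟩ := (AEU.H69.mixS Q).2.2 1 ![x, y] (by
    intro i; fin_cases i
    · exact hx
    · exact hy)
  refine ⟨h1, m1, h2 0, h2 1, (AEU.H69.per).1 x y, ?_⟩
  intro s hs h
  rw [m2]
  refine ⟨hs, ?_⟩
  rcases h with h | h
  · exact ⟨0, h⟩
  · exact ⟨1, h⟩

theorem seg_le {h : ℂ → ℝ} (hs : Sublin h) {x y : ℂ} (hx : In x h) (hy : In y h) :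
    2 * ‖x - y‖ ≤ lam h := by
  obtain ⟨h1, -, -, h4, -, -⟩ := AEU.H69.hul 1 ![x, y]
  have h5 := h4 h (by
    intro i; fin_cases i
    · exact hx
    · exact hy)
  have h6 := (AEU.H69.lamS.2.1 _ h h1 hs h5).1
  rwa [(AEU.H69.per).1 x y] at h6

/-- contact points of a body which touches both sides -/
theorem contacts {Q : Finset HP} (vxx : VxxStatement) {a a' : HP} (hp : Par Q a a') {h : ℂ → ℝ}
    (hs : Sublin h) (hf : Fits Q h) (ha : a ∈ touch Q h) (ha' : a' ∈ touch Q h) :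
    ∃ x y, Pt Q a a' x y ∧ In x h ∧ In y h := by
  obtain ⟨_, _, _, _, _, _, _, _, _, _, h11⟩ := vxx Q hp.pg
  obtain ⟨x, hx1, hx2, hx3⟩ := h11 h hs hf a ha
  obtain ⟨y, hy1, hy2, hy3⟩ := h11 h hs hf a' ha'
  exact ⟨x, y, ⟨hx2, hy2, hx3, hy3⟩, hx1, hy1⟩

/-- sliding a perpendicular pair to a vertex -/
theorem slide {Q : Finset HP} (vxx : VxxStatement) {a a' : HP} (hp : Par Q a a') {x y : ℂ}
    (h : Pt Q a a' x y) : ∃ t : ℝ, Pt Q a a' (x + (t : ℂ) * (I * a.1)) (y + (t : ℂ) * (I * a.1)) ∧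
      (Vx Q (x + (t : ℂ) * (I * a.1)) ∨ Vx Q (y + (t : ℂ) * (I * a.1))) := by
  have hc : IsCompact (Cl Q) := (vxx Q hp.pg).2.2.2.2.2.2.2.2.1
  have hu := norm_I_mul (hp.pg.unit a hp.mem)
  obtain ⟨R, hR⟩ := hc.isBounded.subset_closedBall x
  set T : Set ℝ := {t | x + (t : ℂ) * (I * a.1) ∈ Cl Q ∧ y + (t : ℂ) * (I * a.1) ∈ Cl Q} with hT
  have hTc : IsClosed T := by
    apply IsClosed.inter
    · exact (cl_closed Q).preimage (by fun_prop)
    · exact (cl_closed Q).preimage (by fun_prop)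
  have hTb : T ⊆ Set.Icc (-R) R := by
    intro t ht
    have := hR ht.1
    rw [Metric.mem_closedBall, dist_eq_norm, add_sub_cancel_left, norm_mul, hu, mul_one,
      norm_real, Real.norm_eq_abs] at this
    exact abs_le.1 this
  have hTk : IsCompact T := isCompact_Icc.of_isClosed_subset hTc hTb
  obtain ⟨t, ht, hmax⟩ := hTk.exists_isMaxOn ⟨0, by
    constructor
    · simpa using h.cx
    · simpa using h.cy⟩ (f := fun t : ℝ => t) (by fun_prop)
  have hpt : ∀ r ∈ T, Pt Q a a' (x + (r : ℂ) * (I * a.1)) (y + (r : ℂ) * (I * a.1)) := by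
    intro r hr
    refine ⟨hr.1, hr.2, ?_, ?_⟩
    · rw [ip_add, ip_mul_ofReal, ip_I_self, h.ax]; ring
    · rw [ip_add, ip_mul_ofReal, h.ay, hp.opp, ip_neg_left, ip_I_self]; ring
  refine ⟨t, hpt t ht, ?_⟩
  by_contra hcon
  push Not at hcon
  have h1 := move vxx hp.pg hp.mem ht.1 (hpt t ht).ax hcon.1
  have h2 := move vxx hp.pg hp.mem' ht.2 (hpt t ht).ay hcon.2
  have h2' : ∀ᶠ r : ℝ in 𝓝 0, y + (t : ℂ) * (I * a.1) + (r : ℂ) * (I * a.1) ∈ Cl Q := by
    have hn : Tendsto (fun r : ℝ => -r) (𝓝 0) (𝓝 0) := by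
      have := (continuous_neg (G := ℝ)).tendsto 0
      simpa using this
    refine (hn.eventually h2).mono fun r hr => ?_
    rw [hp.opp] at hr
    have e : y + (t : ℂ) * (I * a.1) + ((-r : ℝ) : ℂ) * (I * -a.1)
        = y + (t : ℂ) * (I * a.1) + (r : ℂ) * (I * a.1) := by
      push_cast; ring
    rwa [e] at hr
  have h3 := h1.and h2'
  rw [Metric.eventually_nhds_iff] at h3
  obtain ⟨ε, hε, h4⟩ := h3
  have h5 := h4 (y := ε / 2) (by
    rw [Real.dist_eq, sub_zero, abs_of_pos (by positivity)]; linarith)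
  have h6 : t + ε / 2 ∈ T := by
    have e : ∀ z : ℂ, z + (t : ℂ) * (I * a.1) + ((ε / 2 : ℝ) : ℂ) * (I * a.1)
        = z + ((t + ε / 2 : ℝ) : ℂ) * (I * a.1) := by
      intro z; push_cast; ring
    constructor
    · rw [← e]; exact h5.1
    · rw [← e]; exact h5.2
  have h7 : t + ε / 2 ≤ t := hmax h6
  linarith

theorem card3 {S : Finset HP} {a b c : HP} (ha : a ∈ S) (hb : b ∈ S) (hc : c ∈ S) (hab : a ≠ b)
    (hac : a ≠ c) (hbc : b ≠ c) : 3 ≤ S.card := by
  classical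
  have h1 : ({a, b, c} : Finset HP) ⊆ S := by
    intro s hs
    simp only [Finset.mem_insert, Finset.mem_singleton] at hs
    rcases hs with rfl | rfl | rfl <;> assumption
  have h2 : ({a, b, c} : Finset HP).card = 3 := by
    rw [Finset.card_eq_three]
    exact ⟨a, b, c, hab, hac, hbc, rfl⟩
  rw [← h2]
  exact Finset.card_le_card h1

theorem card4 {S : Finset HP} {a b c d : HP} (ha : a ∈ S) (hb : b ∈ S) (hc : c ∈ S) (hd : d ∈ S)
    (hab : a ≠ b) (hac : a ≠ c) (had : a ≠ d) (hbc : b ≠ c) (hbd : b ≠ d) (hcd : c ≠ d) :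
    4 ≤ S.card := by
  classical
  have h1 : ({a, b, c, d} : Finset HP) ⊆ S := by
    intro s hs
    simp only [Finset.mem_insert, Finset.mem_singleton] at hs
    rcases hs with rfl | rfl | rfl | rfl <;> assumption
  have h2 : ({a, b, c, d} : Finset HP).card = 4 := by
    rw [Finset.card_insert_of_notMem, Finset.card_eq_three.2 ⟨b, c, d, hbc, hbd, hcd, rfl⟩]
    simp only [Finset.mem_insert, Finset.mem_singleton, not_or]
    exact ⟨hab, hac, had⟩
  rw [← h2]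
  exact Finset.card_le_card h1

/-- the segment from a vertex on the side `a` to a point of the side `a'` is special -/
theorem special_of_vx {Q : Finset HP} (vxx : VxxStatement) {a a' : HP} (hp : Par Q a a') {x y : ℂ}
    (h : Pt Q a a' x y) (hv : Vx Q x) : Special Q (hf ![x, y]) := by
  obtain ⟨s, hs⟩ := vx_on vxx hp.pg hp.mem h.ax hv
  obtain ⟨b1, b2, b3, b4, b5, b6⟩ := seg_body h.cx h.cy
  have hsa' : s ≠ a' := by
    rintro rfl
    exact absurd hs.on₂ (hp.off h.ax).ne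
  refine ⟨b1, b2, card3 (b6 a hp.mem (Or.inl h.ax)) (b6 s hs.mem₂ (Or.inl hs.on₂))
    (b6 a' hp.mem' (Or.inr h.ay)) hs.ne hp.ne hsa', Or.inl ⟨x, hv, b3⟩⟩

theorem hf_swap (x y : ℂ) : hf ![x, y] = hf ![y, x] := by
  funext w
  have h1 := AEU.H69.hul 1 ![x, y]
  have h2 := AEU.H69.hul 1 ![y, x]
  apply le_antisymm
  · refine h1.2.2.2.1 _ ?_ w
    intro i; fin_cases i
    · exact h2.2.1 1
    · exact h2.2.1 0
  · refine h2.2.2.2.1 _ ?_ w
    intro i; fin_cases i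
    · exact h1.2.1 1
    · exact h1.2.1 0

/-- four contacts of a diagonal -/
theorem four_contacts {Q : Finset HP} {a a' : HP} (hp : Par Q a a') {x y : ℂ} {s s' : HP}
    (hs : VxOf Q a s x) (hs' : VxOf Q a' s' y) (hss : s ≠ s') :
    4 ≤ (touch Q (hf ![x, y])).card := by
  obtain ⟨b1, b2, b3, b4, b5, b6⟩ := seg_body hs.cl hs'.cl
  have hsa' : s ≠ a' := by
    rintro rfl
    exact absurd hs.on₂ (hp.off hs.on₁).ne
  have hsa : s' ≠ a := by
    rintro rfl
    exact absurd hs'.on₂ (hp.symm.off hs'.on₁).ne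
  exact card4 (b6 a hp.mem (Or.inl hs.on₁)) (b6 s hs.mem₂ (Or.inl hs.on₂))
    (b6 a' hp.mem' (Or.inr hs'.on₁)) (b6 s' hs'.mem₂ (Or.inr hs'.on₂)) hs.ne hp.ne hsa.symm
    hsa' hss hs'.ne

/-! ### Parallel sides are not placed -/

theorem not_placed {P : Finset HP} (hP : G1 P) {a a' : HP} (hu : ‖a.1‖ = 1)
    (opp : a'.1 = -a.1) (g : Iso2) (h1 : mv g a ∈ P) (h2 : mv g a' ∈ P) : False := by
  obtain ⟨_, _, _, _, _, _, _, h8, _, h10, _⟩ := AEU.H72.act
  have e : ip (mv g a).1 (mv g a').1 = -1 := by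
    rw [h8, opp, ip_neg_right, ip_self_one hu]
  by_cases hne : mv g a = mv g a'
  · rw [← hne, ip_self, h10, hu] at e
    norm_num at e
  · have := hP.lt1 _ h1 _ h2 hne
    rw [e] at this
    norm_num at this

theorem mv_inj {g : Iso2} {s t : HP} (h : mv g s = mv g t) : s = t := by
  obtain ⟨h1, h2, _⟩ := AEU.H72.act
  have := congrArg (mv g⁻¹) h
  rwa [← h1, ← h1, inv_mul_cancel, h2, h2] at this

/-- a linear isometry which exchanges two vectors -/
theorem exchange (φ : ℂ ≃ₗᵢ[ℝ] ℂ) {a c b b' : ℂ} (ha : ‖a‖ = 1) (hac : φ a = c) (hca : φ c = a)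
    (hb' : ‖b'‖ = 1) (hb : φ b' = -b) : |ip a c| = 1 ∨ a * c = -(b * b') := by
  have ha0 : a ≠ 0 := by rintro rfl; simp at ha
  have haa : a * (starRingEnd ℂ) a = 1 := by
    rw [mul_conj, normSq_eq_norm_sq, ha]; norm_num
  have hbb : b' * (starRingEnd ℂ) b' = 1 := by
    rw [mul_conj, normSq_eq_norm_sq, hb']; norm_num
  obtain ⟨u, hu | hu⟩ := linear_isometry_complex φ
  · left
    have e1 : c = (u : ℂ) * a := by rw [← hac, hu, rotation_apply]
    have e2 : a = (u : ℂ) * c := by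
      nth_rewrite 1 [← hca]
      rw [hu, rotation_apply]
    have e3 : ((u : ℂ) * u - 1) * a = 0 := by
      have : a = (u : ℂ) * ((u : ℂ) * a) := by rw [← e1]; exact e2
      linear_combination -this
    have e4 : ((u : ℂ) - 1) * (u + 1) = 0 := by
      have := (mul_eq_zero.1 e3).resolve_right ha0
      linear_combination this
    rcases mul_eq_zero.1 e4 with e5 | e5
    · have : c = a := by rw [e1, sub_eq_zero.1 e5, one_mul]
      rw [this, ip_self_one ha]; norm_num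
    · have : c = -a := by rw [e1, eq_neg_of_add_eq_zero_left e5]; ring
      rw [this, ip_neg_right, ip_self_one ha]; norm_num
  · right
    have e1 : c = (u : ℂ) * (starRingEnd ℂ) a := by
      rw [← hac, hu]
      simp
    have e2 : -b = (u : ℂ) * (starRingEnd ℂ) b' := by
      rw [← hb, hu]
      simp
    have e3 : a * c = (u : ℂ) := by
      rw [e1]; linear_combination (u : ℂ) * haa
    rw [e3]
    linear_combination (-b') * e2 - (u : ℂ) * hbb

/-- the sides `j`, `l` of a torn body of `Q` are not parallel -/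
theorem qtor_not_par {P Q : Finset HP} {L : ℝ} (hP : G1 P) (hPg : Pg P) (hQ : Pg Q) {h : ℂ → ℝ}
    {i j k l : HP} {v w : ℂ} {g1 g2 : Iso2} (hq : QTor Q P L h i j k l v w g1 g2) :
    l.1 ≠ -j.1 := by
  intro hop
  obtain ⟨hij, hik, hil, hjk, hjl, hkl⟩ := hq.sh.ne
  set φ : ℂ ≃ₗᵢ[ℝ] ℂ := g2.linearIsometryEquiv.symm.trans g1.linearIsometryEquiv with hφ
  have key : ∀ z, φ (g2.linearIsometryEquiv z) = g1.linearIsometryEquiv z := by
    intro z
    rw [hφ, LinearIsometryEquiv.trans_apply, LinearIsometryEquiv.symm_apply_apply]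
  have hl : ‖(mv g2 l).1‖ = 1 := hPg.unit _ hq.l2
  have ha : ‖(mv g1 i).1‖ = 1 := hPg.unit _ hq.i1
  have ex1 : (mv g1 i).1 = g2.linearIsometryEquiv k.1 := by rw [hq.ex]; rfl
  have ex2 : (mv g1 k).1 = g2.linearIsometryEquiv i.1 := by rw [hq.ex']; rfl
  have r := exchange φ (a := (mv g1 i).1) (c := (mv g1 k).1) (b := (mv g1 j).1)
    (b' := (mv g2 l).1) ha (by rw [ex1, key]; rfl) (by rw [ex2, key]; rfl) hl (by
      change φ (g2.linearIsometryEquiv l.1) = -(g1.linearIsometryEquiv j.1)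
      rw [key, hop, map_neg])
  rcases r with r | r
  · have := hP.lt1 _ hq.i1 _ hq.k1 (fun h0 => hik (mv_inj h0))
    linarith
  · refine (hP.four (mv g1 i) hq.i1 (mv g1 j) hq.j1 (mv g1 k) hq.k1 (mv g2 l) hq.l2
      (fun h0 => hij (mv_inj h0)) (fun h0 => hik (mv_inj h0)) ?_ (fun h0 => hjk (mv_inj h0))
      hq.ne ?_).2 r
    · rw [hq.ex]
      exact fun h0 => hkl (mv_inj h0)
    · rw [hq.ex']
      exact fun h0 => hil (mv_inj h0)

/-- a special body touching two parallel sides has length at least `L` -/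
theorem low {P Q : Finset HP} {L : ℝ} (hH : Hyp P Q L) (hP : G1 P) {a a' : HP} (hp : Par Q a a')
    {h : ℂ → ℝ} (hs : Special Q h) (ha : a ∈ touch Q h) (ha' : a' ∈ touch Q h) : L ≤ lam h := by
  by_contra hcon
  push Not at hcon
  obtain ⟨g, hg⟩ := hH.m2 h hs hcon
  exact not_placed hP (hp.pg.unit a hp.mem) hp.opp g (hg.mem a ha) (hg.mem a' ha')

/-- a special body of length `L` touching two parallel sides has only three contacts -/
theorem not4 (cqx : CqxStatement) {P Q : Finset HP} {L : ℝ} (hH : Hyp P Q L) (hP : GenX P)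
    {a a' : HP} (hp : Par Q a a') {h : ℂ → ℝ} (hs : Special Q h) (ha : a ∈ touch Q h)
    (ha' : a' ∈ touch Q h) (hl : lam h = L) (h4 : 4 ≤ (touch Q h).card) : False := by
  have hu : Unl Q P h := by
    refine ⟨hs, ?_⟩
    rintro ⟨g, -, hg⟩
    exact not_placed hP.gen.g1 (hp.pg.unit a hp.mem) hp.opp g (hg a ha) (hg a' ha')
  obtain ⟨i, j, k, l, v, w, g1, g2, hq, ht⟩ := cqx P Q L hH hP hp.pg h hu hl h4
  rw [ht] at ha ha'
  simp only [Finset.mem_insert, Finset.mem_singleton] at ha ha'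
  have hjl := qtor_not_par hP.gen.g1 hP.gen.pg hp.pg hq
  have n1 : ∀ s t : HP, ‖s.1‖ = 1 → t.1 = -s.1 → mv g1 s ∈ P → mv g1 t ∈ P → False :=
    fun s t h1 h2 h3 h4 => not_placed hP.gen.g1 h1 h2 g1 h3 h4
  have n2 : ∀ s t : HP, ‖s.1‖ = 1 → t.1 = -s.1 → mv g2 s ∈ P → mv g2 t ∈ P → False :=
    fun s t h1 h2 h3 h4 => not_placed hP.gen.g1 h1 h2 g2 h3 h4
  have ua := hp.pg.unit a hp.mem
  have ho := hp.opp
  have hne := hp.ne
  rcases ha with rfl | rfl | rfl | rfl <;> rcases ha' with rfl | rfl | rfl | rfl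
  · exact hne rfl
  · exact n1 _ _ ua ho hq.i1 hq.j1
  · exact n1 _ _ ua ho hq.i1 hq.k1
  · exact n2 _ _ ua ho hq.i2 hq.l2
  · exact n1 _ _ ua ho hq.j1 hq.i1
  · exact hne rfl
  · exact n1 _ _ ua ho hq.j1 hq.k1
  · exact hjl ho
  · exact n1 _ _ ua ho hq.k1 hq.i1
  · exact n1 _ _ ua ho hq.k1 hq.j1
  · exact hne rfl
  · exact n2 _ _ ua ho hq.k2 hq.l2
  · exact n2 _ _ ua ho hq.l2 hq.i2
  · exact hjl (by rw [ho, neg_neg])
  · exact n2 _ _ ua ho hq.l2 hq.k2
  · exact hne rfl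

/-- the shortest pair has length at least `L / 2` -/
theorem mn_low (vxx : VxxStatement) {P Q : Finset HP} {L : ℝ} (hH : Hyp P Q L) (hP : G1 P)
    {a a' : HP} (hp : Par Q a a') {x y : ℂ} (h : Mn Q a a' x y) : L ≤ 2 * ‖x - y‖ := by
  have fin : ∀ {b b' : HP} {x' y' : ℂ}, Par Q b b' → Pt Q b b' x' y' → Vx Q x' →
      L ≤ 2 * ‖x' - y'‖ := by
    intro b b' x' y' hp' h' hv
    obtain ⟨b1, b2, b3, b4, b5, b6⟩ := seg_body h'.cx h'.cy
    rw [← b5]
    exact low hH hP hp' (special_of_vx vxx hp' h' hv) (b6 b hp'.mem (Or.inl h'.ax))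
      (b6 b' hp'.mem' (Or.inr h'.ay))
  rcases mn_cases vxx hp h with h1 | ⟨s, s', hss, hs, hs'⟩
  · obtain ⟨t, ht, hv⟩ := slide vxx hp h.1
    have e : x + (t : ℂ) * (I * a.1) - (y + (t : ℂ) * (I * a.1)) = x - y := by ring
    rcases hv with hv | hv
    · have := fin hp ht hv
      rwa [e] at this
    · have := fin hp.symm ht.symm hv
      rwa [norm_sub_rev, e] at this
  · exact fin hp h.1 ⟨a, s, hs⟩

/-- a shortest pair of length `L / 2` is perpendicular -/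
theorem mn_face (vxx : VxxStatement) (cqx : CqxStatement) {P Q : Finset HP} {L : ℝ}
    (hH : Hyp P Q L) (hP : GenX P) {a a' : HP} (hp : Par Q a a') {x y : ℂ} (h : Mn Q a a' x y)
    (hl : 2 * ‖x - y‖ = L) : FacePair Q L a a' := by
  have h0 : ip (I * a.1) (x - y) = 0 := by
    rcases mn_cases vxx hp h with h1 | ⟨s, s', hss, hs, hs'⟩
    · exact h1
    · exfalso
      obtain ⟨b1, b2, b3, b4, b5, b6⟩ := seg_body h.1.cx h.1.cy
      exact not4 cqx hH hP hp (special_of_vx vxx hp h.1 ⟨a, s, hs⟩) (b6 a hp.mem (Or.inl h.1.ax))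
        (b6 a' hp.mem' (Or.inr h.1.ay)) (by rw [b5, hl]) (four_contacts hp hs hs' hss)
  have hD := hp.pos
  have e := decomp (hp.pg.unit a hp.mem) (x - y)
  have e1 : ip a.1 (x - y) = a.2 + a'.2 := by
    have := h.1.ay
    rw [hp.opp, ip_neg_left] at this
    rw [ip_sub, h.1.ax]
    linarith
  rw [h0, e1, ofReal_zero, zero_mul, add_zero] at e
  have e2 : ‖x - y‖ = a.2 + a'.2 := by
    rw [e, norm_mul, hp.pg.unit a hp.mem, norm_real, Real.norm_eq_abs, abs_of_pos hD, mul_one]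
  have e3 : a.2 + a'.2 = L / 2 := by rw [← hl, e2]; ring
  refine ⟨hp.mem, hp.mem', hp.opp, e3, x, h.1.cx, h.1.ax, ?_⟩
  rw [← e3, ← e, sub_sub_cancel]
  exact h.1.cy

theorem par_of (vxx : VxxStatement) {Q : Finset HP} (hQ : Pg Q) {a a' : HP} (ha : a ∈ Q)
    (ha' : a' ∈ Q) (hne : a ≠ a') (hd : dt a.1 a'.1 = 0) : Par Q a a' :=
  ⟨hQ, ha, ha', hne, (vxx Q hQ).2.2.2.2.2.2.2.2.2.1 a ha a' ha' hne hd⟩

/-- PRX -/
theorem prx (vxx : VxxStatement) (cqx : CqxStatement) : PrxStatement := by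
  intro P Q L hH hP hQ _ a ha a' ha' hne hd h hs hfit ht ht'
  have hp := par_of vxx hQ ha ha' hne hd
  obtain ⟨x₁, y₁, h1, hx1, hy1⟩ := contacts vxx hp hs hfit ht ht'
  obtain ⟨x₀, y₀, h0⟩ := exists_mn ((vxx Q hQ).2.2.2.2.2.2.2.2.1) h1
  have e1 := mn_low vxx hH hP.gen.g1 hp h0
  have e2 := h0.2 x₁ y₁ h1
  have e3 := seg_le hs hx1 hy1
  refine ⟨by linarith, fun hl => ?_⟩
  refine mn_face vxx cqx hH hP hp h0 (by linarith)

end Pool.Agent.XQ.H67
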