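import Pool.Agent.Helper16_XQ.StmtD
import Pool.Agent.Helper67_XQ.Prx

/-!
Squad XQ (MP_5b0138_an), module TWF: a short body is too wide for at most one pair of facing sides.
-/

set_option autoImplicit false

namespace Pool.Agent.XQ.H67

open MeasureTheory Complex Filter Topology Pool.Agent.H62T
open Pool.Agent.H16F (Sublin)
open Pool.Agent.AEU Pool.Agent.XQ

/-- four quarter circles -/
theorem quarter (arc : ArcStatement) {h : ℂ → ℝ} (hs : Sublin h) {p : ℂ} (hp : ‖p‖ = Real.sqrt 2) :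
    h p + h (I * p) + h (-p) + h (-(I * p)) ≤ lam h := by
  have hsq : Real.sqrt 2 * Real.sqrt 2 = 2 := Real.mul_self_sqrt (by norm_num)
  have hnorm : ‖(1 - I) / 2 * p‖ = 1 := by
    have h1 : ‖(1 - I : ℂ)‖ = Real.sqrt 2 := by
      rw [Complex.norm_def, normSq_apply]
      norm_num
    rw [norm_mul, norm_div, h1, hp]
    rw [show ‖(2 : ℂ)‖ = 2 by simp]
    field_simp
    linarith
  obtain ⟨θ, hθ⟩ := (Complex.norm_eq_one_iff _).1 hnorm
  have key : ∀ a : ℝ, h ((I + 1) * exp (a * I)) ≤ ∫ θ in a..(a + Real.pi / 2), h (exp (θ * I)) := by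
    intro a
    have h1 := (arc h hs a (a + Real.pi / 2) (by linarith [Real.pi_pos])
      (by linarith [Real.pi_pos])).1
    have e : I * exp (a * I) - I * exp ((a + Real.pi / 2 : ℝ) * I) = (I + 1) * exp (a * I) := by
      have : exp ((a + Real.pi / 2 : ℝ) * I) = exp (a * I) * I := by
        rw [ofReal_add, add_mul, Complex.exp_add]
        congr 1
        push_cast
        exact Complex.exp_pi_div_two_mul_I
      rw [this]
      linear_combination (-exp (a * I)) * I_mul_I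
    rwa [e] at h1
  have step : ∀ a : ℝ, exp ((a + Real.pi / 2 : ℝ) * I) = exp (a * I) * I := by
    intro a
    rw [ofReal_add, add_mul, Complex.exp_add]
    congr 1
    push_cast
    exact Complex.exp_pi_div_two_mul_I
  have hcont : Continuous fun t : ℝ => h (exp (t * I)) := by
    have hc := (AEU.H69.sup h hs).2.1
    exact hc.comp (by fun_prop)
  have hper : Function.Periodic (fun t : ℝ => h (exp (t * I))) (2 * Real.pi) := by
    intro t
    simp only
    congr 1
    push_cast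
    rw [add_mul]
    exact Complex.exp_periodic _
  have h0 := hper.intervalIntegral_add_eq 0 θ
  rw [zero_add] at h0
  have hlam : lam h = ∫ t in θ..(θ + 2 * Real.pi), h (exp (t * I)) := h0
  have hi : ∀ a b : ℝ, IntervalIntegrable (fun t : ℝ => h (exp (t * I))) volume a b :=
    fun a b => hcont.intervalIntegrable a b
  set b1 := θ + Real.pi / 2 with hb1
  set b2 := b1 + Real.pi / 2 with hb2
  set b3 := b2 + Real.pi / 2 with hb3
  have e4 : θ + 2 * Real.pi = b3 + Real.pi / 2 := by rw [hb3, hb2, hb1]; ring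
  rw [hlam, e4, ← intervalIntegral.integral_add_adjacent_intervals (hi θ b1) (hi b1 _),
    ← intervalIntegral.integral_add_adjacent_intervals (hi b1 b2) (hi b2 _),
    ← intervalIntegral.integral_add_adjacent_intervals (hi b2 b3) (hi b3 _)]
  have k0 := key θ
  have k1 := key b1
  have k2 := key b2
  have k3 := key b3
  have p0 : (I + 1) * exp (θ * I) = p := by
    rw [hθ]
    linear_combination (-p / 2) * I_mul_I
  have p1 : (I + 1) * exp (b1 * I) = I * p := by
    rw [hb1, step, ← mul_assoc, p0, mul_comm]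
  have p2 : (I + 1) * exp (b2 * I) = -p := by
    rw [hb2, step, ← mul_assoc, p1]
    linear_combination p * I_mul_I
  have p3 : (I + 1) * exp (b3 * I) = -(I * p) := by
    rw [hb3, step, ← mul_assoc, p2]
    ring
  rw [p0] at k0
  rw [p1] at k1
  rw [p2] at k2
  rw [p3] at k3
  linarith

/-- sum of the widths in two orthogonal directions -/
theorem quarter' (arc : ArcStatement) {h : ℂ → ℝ} (hs : Sublin h) (p : ℂ) :
    Real.sqrt 2 * (h p + h (I * p) + h (-p) + h (-(I * p))) ≤ ‖p‖ * lam h := by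
  have h00 : h 0 = 0 := (AEU.H69.sup h hs).1
  rcases eq_or_ne p 0 with rfl | hp
  · simp [h00]
  have hn : 0 < ‖p‖ := norm_pos_iff.2 hp
  have hsq : Real.sqrt 2 * Real.sqrt 2 = 2 := Real.mul_self_sqrt (by norm_num)
  have hs2 : 0 < Real.sqrt 2 := by positivity
  set r : ℝ := Real.sqrt 2 / ‖p‖ with hr
  have hr0 : 0 ≤ r := by positivity
  have h1 := quarter arc hs (p := (r : ℂ) * p) (by
    rw [norm_mul, norm_real, Real.norm_eq_abs, abs_of_nonneg hr0, hr]
    field_simp)
  have e1 : I * ((r : ℂ) * p) = (r : ℂ) * (I * p) := by ring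
  have e2 : -((r : ℂ) * p) = (r : ℂ) * (-p) := by ring
  have e3 : -((r : ℂ) * (I * p)) = (r : ℂ) * (-(I * p)) := by ring
  rw [e1, e2, e3, hs.2 r _ hr0, hs.2 r _ hr0, hs.2 r _ hr0, hs.2 r _ hr0] at h1
  have h2 : r * (h p + h (I * p) + h (-p) + h (-(I * p))) ≤ lam h := by linarith
  have h3 : ‖p‖ * (r * (h p + h (I * p) + h (-p) + h (-(I * p)))) ≤ ‖p‖ * lam h := by
    gcongr
  have h4 : ‖p‖ * r = Real.sqrt 2 := by
    rw [hr]
    field_simp
  rw [← mul_assoc, h4] at h3
  exact h3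

theorem two_widths_pos (arc : ArcStatement) {h : ℂ → ℝ} (hs : Sublin h) {u v : ℂ} (hu : ‖u‖ = 1)
    (hv : ‖v‖ = 1) (hk : 0 ≤ ip u v) (hd : 0 ≤ dt u v) :
    h u + h (-u) + (h v + h (-v)) ≤ Real.sqrt ((1 + ip u v) / 2) * lam h := by
  set κ := ip u v with hκ
  set σ := dt u v with hσ
  have hks : κ ^ 2 + σ ^ 2 = 1 := by
    have : κ ^ 2 + σ ^ 2 = ‖u‖ ^ 2 * ‖v‖ ^ 2 := by
      rw [← normSq_eq_norm_sq, ← normSq_eq_norm_sq, normSq_apply, normSq_apply, hκ, hσ, ip, dt]
      ring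
    rw [this, hu, hv]; norm_num
  have hσ1 : σ ≤ 1 := by nlinarith
  set t : ℝ := σ / (1 + κ) with ht
  have ht0 : 0 ≤ t := by positivity
  have ht1 : t ≤ 1 := by
    rw [ht, div_le_one (by linarith)]
    linarith
  have htk : t * (1 + κ) = σ := by
    rw [ht]; field_simp
  set p : ℂ := (u + v) * (1 - I) / 2 with hp
  -- `v = u (κ + I σ)`
  have huu : u * (starRingEnd ℂ) u = 1 := by
    rw [mul_conj, normSq_eq_norm_sq, hu]; norm_num
  have hvu : v = u * ((κ : ℂ) + I * (σ : ℂ)) := by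
    have e : (starRingEnd ℂ) u * v = (κ : ℂ) + I * (σ : ℂ) := by
      apply Complex.ext
      · simp [hκ, ip]
      · simp [hσ, dt]
        ring
    rw [← e, ← mul_assoc, huu, one_mul]
  have hks' : (κ : ℂ) ^ 2 + (σ : ℂ) ^ 2 = 1 := by exact_mod_cast hks
  have htk' : (t : ℂ) * (1 + (κ : ℂ)) = (σ : ℂ) := by exact_mod_cast htk
  have hvm : v - u = (t : ℂ) * I * (u + v) := by
    have h1 : ((1 : ℂ) + κ) * (v - u) = ((1 : ℂ) + κ) * ((t : ℂ) * I * (u + v)) := by
      have : ((1 : ℂ) + κ) * ((t : ℂ) * I * (u + v)) = (σ : ℂ) * I * (u + v) := by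
        rw [← htk']; ring
      rw [this, hvu]
      linear_combination (u) * hks' + (-u * (σ : ℂ) ^ 2) * I_mul_I
    have h2 : (1 : ℂ) + κ ≠ 0 := by
      have : (1 : ℝ) + κ ≠ 0 := by positivity
      exact_mod_cast this
    exact mul_left_cancel₀ h2 h1
  have eu : u = (((1 + t) / 2 : ℝ) : ℂ) * p + (((1 - t) / 2 : ℝ) : ℂ) * (I * p) := by
    rw [hp]
    push_cast
    linear_combination (-1 / 2 : ℂ) * hvm + ((u + v) * (1 - t) / 4) * I_mul_I
  have ev : v = (((1 - t) / 2 : ℝ) : ℂ) * p + (((1 + t) / 2 : ℝ) : ℂ) * (I * p) := by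
    rw [hp]
    push_cast
    linear_combination (1 / 2 : ℂ) * hvm + ((u + v) * (1 + t) / 4) * I_mul_I
  have x0 : 0 ≤ (1 + t) / 2 := by linarith
  have y0 : 0 ≤ (1 - t) / 2 := by linarith
  have hcomb : ∀ (x y : ℝ) (a b : ℂ), 0 ≤ x → 0 ≤ y →
      h ((x : ℂ) * a + (y : ℂ) * b) ≤ x * h a + y * h b := by
    intro x y a b hx hy
    have := hs.1 ((x : ℂ) * a) ((y : ℂ) * b)
    rwa [hs.2 x a hx, hs.2 y b hy] at this
  have f1 := hcomb _ _ p (I * p) x0 y0
  have f2 := hcomb _ _ (-p) (-(I * p)) x0 y0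
  have f3 := hcomb _ _ p (I * p) y0 x0
  have f4 := hcomb _ _ (-p) (-(I * p)) y0 x0
  rw [← eu] at f1
  rw [← ev] at f3
  have e2 : (((1 + t) / 2 : ℝ) : ℂ) * (-p) + (((1 - t) / 2 : ℝ) : ℂ) * (-(I * p)) = -u := by
    rw [eu]; push_cast; ring
  have e4 : (((1 - t) / 2 : ℝ) : ℂ) * (-p) + (((1 + t) / 2 : ℝ) : ℂ) * (-(I * p)) = -v := by
    rw [ev]; push_cast; ring
  rw [e2] at f2
  rw [e4] at f4
  have g1 : h u + h (-u) + (h v + h (-v)) ≤ h p + h (I * p) + h (-p) + h (-(I * p)) := by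
    linarith
  have g2 := quarter' arc hs p
  have hpn : ‖p‖ = Real.sqrt (1 + κ) := by
    have h1 : ‖p‖ ^ 2 = 1 + κ := by
      have e : ‖p‖ ^ 2 = (‖u‖ ^ 2 + ‖v‖ ^ 2 + 2 * κ) / 2 := by
        rw [← normSq_eq_norm_sq, ← normSq_eq_norm_sq, ← normSq_eq_norm_sq, normSq_apply,
          normSq_apply, normSq_apply, hκ, ip, hp]
        have r1 : ((u + v) * (1 - I) / 2).re = (u.re + v.re + u.im + v.im) / 2 := by
          have : (u + v) * (1 - I) / 2 = ((1 / 2 : ℝ) : ℂ) * ((u + v) * (1 - I)) := by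
            push_cast; ring
          rw [this, re_ofReal_mul]
          simp [mul_re]
          ring
        have r2 : ((u + v) * (1 - I) / 2).im = (u.im + v.im - u.re - v.re) / 2 := by
          have : (u + v) * (1 - I) / 2 = ((1 / 2 : ℝ) : ℂ) * ((u + v) * (1 - I)) := by
            push_cast; ring
          rw [this, im_ofReal_mul]
          simp [mul_im]
          ring
        rw [r1, r2]
        ring
      rw [e, hu, hv]; ring
    rw [← h1, Real.sqrt_sq (norm_nonneg _)]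
  rw [hpn] at g2
  have hs2 : 0 < Real.sqrt 2 := by positivity
  rw [Real.sqrt_div (by linarith), div_mul_eq_mul_div, le_div_iff₀ hs2]
  calc (h u + h (-u) + (h v + h (-v))) * Real.sqrt 2
      ≤ (h p + h (I * p) + h (-p) + h (-(I * p))) * Real.sqrt 2 := by gcongr
    _ ≤ Real.sqrt (1 + κ) * lam h := by rw [mul_comm]; exact g2

theorem dt_comm (u v : ℂ) : dt v u = -dt u v := by
  simp only [dt]; ring

theorem ip_comm (u v : ℂ) : ip v u = ip u v := by
  simp only [ip]; ring

/-- perimeter and the widths in two directions -/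
theorem two_widths (arc : ArcStatement) {h : ℂ → ℝ} (hs : Sublin h) {u v : ℂ} (hu : ‖u‖ = 1)
    (hv : ‖v‖ = 1) :
    h u + h (-u) + (h v + h (-v)) ≤ Real.sqrt ((1 + |ip u v|) / 2) * lam h := by
  have pos : ∀ {u v : ℂ}, ‖u‖ = 1 → ‖v‖ = 1 → 0 ≤ ip u v →
      h u + h (-u) + (h v + h (-v)) ≤ Real.sqrt ((1 + |ip u v|) / 2) * lam h := by
    intro u v hu hv hk
    rw [abs_of_nonneg hk]
    rcases le_total 0 (dt u v) with hd | hd
    · exact two_widths_pos arc hs hu hv hk hd
    · have h1 := two_widths_pos arc hs hv hu (by rw [ip_comm]; exact hk)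
        (by rw [dt_comm]; linarith)
      rw [ip_comm] at h1
      linarith
  rcases le_total 0 (ip u v) with hk | hk
  · exact pos hu hv hk
  · have h1 := pos (u := u) (v := -v) hu (by rw [norm_neg, hv]) (by rw [ip_neg_right]; linarith)
    rw [ip_neg_right, abs_neg, neg_neg] at h1
    linarith

theorem exists_pos_le {α : Type*} (S : Finset α) (f : α → ℝ) (hf : ∀ a ∈ S, 0 < f a) :
    ∃ δ > 0, ∀ a ∈ S, δ ≤ f a := by
  classical
  induction S using Finset.induction_on with
  | empty => exact ⟨1, one_pos, by simp⟩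
  | insert a S _ ih =>
    obtain ⟨δ, hδ, h⟩ := ih fun b hb => hf b (Finset.mem_insert_of_mem hb)
    refine ⟨min δ (f a), lt_min hδ (hf a (Finset.mem_insert_self _ _)), ?_⟩
    intro b hb
    rcases Finset.mem_insert.1 hb with rfl | hb
    · exact min_le_right _ _
    · exact (min_le_left _ _).trans (h b hb)

theorem eq_of_normal {Q : Finset HP} (hQ : Pg Q) {s t : HP} (hs : s ∈ Q) (ht : t ∈ Q)
    (h : s.1 = t.1) : s = t := by
  by_contra hne
  obtain ⟨x, hx, hx'⟩ := hQ.side s hs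
  obtain ⟨y, hy, hy'⟩ := hQ.side t ht
  have h1 := hx' t ht (Ne.symm hne)
  have h2 := hy' s hs hne
  rw [← h, hx] at h1
  rw [h, hy] at h2
  linarith

/-- TWF -/
theorem twf (arc : ArcStatement) : TwfStatement := by
  intro Q L hL hQ
  classical
  set k : HP × HP → ℝ := fun p => Real.sqrt ((1 + |ip p.1.1 p.2.1|) / 2) with hk
  set S : Finset (HP × HP) := (Q ×ˢ Q).filter fun p => |ip p.1.1 p.2.1| < 1 with hS
  have hkp : ∀ p ∈ S, 0 < k p ∧ k p < 1 := by
    intro p hp
    have h1 := (Finset.mem_filter.1 hp).2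
    have h0 := abs_nonneg (ip p.1.1 p.2.1)
    constructor
    · exact Real.sqrt_pos.2 (by linarith)
    · rw [hk]
      simp only
      rw [Real.sqrt_lt' one_pos]
      linarith
  obtain ⟨δ, hδ, hδ'⟩ := exists_pos_le S (fun p => L / k p - L) (by
    intro p hp
    obtain ⟨h1, h2⟩ := hkp p hp
    have : L < L / k p := by
      rw [lt_div_iff₀ h1]
      nlinarith
    linarith)
  refine ⟨δ, hδ, ?_⟩
  intro h hs hl a a' b b' ha hb wa wb
  have ua := hQ.unit a ha.mem
  have ub := hQ.unit b hb.mem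
  by_cases hlt : |ip a.1 b.1| < 1
  · exfalso
    have hp : (a, b) ∈ S := by
      rw [hS, Finset.mem_filter]
      exact ⟨Finset.mem_product.2 ⟨ha.mem, hb.mem⟩, hlt⟩
    obtain ⟨h1, h2⟩ := hkp _ hp
    have h3 := hδ' _ hp
    have h4 := two_widths arc hs ua ub
    rw [ha.opp] at wa
    rw [hb.opp] at wb
    have h5 : L < k (a, b) * lam h := by
      have : L < h a.1 + h (-a.1) + (h b.1 + h (-b.1)) := by linarith
      exact this.trans_le h4
    have h6 : L / k (a, b) < lam h := by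
      rw [div_lt_iff₀ h1]
      linarith
    linarith
  · have h1 : |ip a.1 b.1| = 1 := by
      apply le_antisymm _ (not_lt.1 hlt)
      have : ip a.1 b.1 ^ 2 + dt a.1 b.1 ^ 2 = ‖a.1‖ ^ 2 * ‖b.1‖ ^ 2 := by
        rw [← normSq_eq_norm_sq, ← normSq_eq_norm_sq, normSq_apply, normSq_apply, ip, dt]
        ring
      rw [ua, ub] at this
      rw [abs_le]
      constructor <;> nlinarith [sq_nonneg (dt a.1 b.1)]
    have e : ‖a.1 - b.1‖ ^ 2 = 2 - 2 * ip a.1 b.1 := by
      have : ‖a.1 - b.1‖ ^ 2 = ‖a.1‖ ^ 2 + ‖b.1‖ ^ 2 - 2 * ip a.1 b.1 := by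
        rw [← normSq_eq_norm_sq, ← normSq_eq_norm_sq, ← normSq_eq_norm_sq, normSq_apply,
          normSq_apply, normSq_apply, ip]
        simp only [sub_re, sub_im]
        ring
      rw [this, ua, ub]; ring
    have e' : ‖a.1 + b.1‖ ^ 2 = 2 + 2 * ip a.1 b.1 := by
      have : ‖a.1 + b.1‖ ^ 2 = ‖a.1‖ ^ 2 + ‖b.1‖ ^ 2 + 2 * ip a.1 b.1 := by
        rw [← normSq_eq_norm_sq, ← normSq_eq_norm_sq, ← normSq_eq_norm_sq, normSq_apply,
          normSq_apply, normSq_apply, ip]
        simp only [add_re, add_im]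
        ring
      rw [this, ua, ub]; ring
    rcases eq_or_eq_neg_of_abs_eq h1 with h2 | h2
    · left
      rw [h2] at e
      have h3 : a.1 = b.1 := by
        have : ‖a.1 - b.1‖ = 0 := by nlinarith [norm_nonneg (a.1 - b.1)]
        exact sub_eq_zero.1 (norm_eq_zero.1 this)
      refine ⟨eq_of_normal hQ ha.mem hb.mem h3, eq_of_normal hQ ha.mem' hb.mem' ?_⟩
      rw [ha.opp, hb.opp, h3]
    · right
      rw [h2] at e'
      have h3 : a.1 = -b.1 := by
        have : ‖a.1 + b.1‖ = 0 := by nlinarith [norm_nonneg (a.1 + b.1)]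
        exact eq_neg_of_add_eq_zero_left (norm_eq_zero.1 this)
      refine ⟨eq_of_normal hQ ha.mem hb.mem' ?_, eq_of_normal hQ ha.mem' hb.mem ?_⟩
      · rw [hb.opp, h3]
      · rw [ha.opp, h3, neg_neg]

end Pool.Agent.XQ.H67
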