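import Pool.Agent.Helper67_XQ.Prx

/-!
Squad XQ (MP_5b0138_an), module PRD.
-/

set_option autoImplicit false

namespace Pool.Agent.XQ.H67

open MeasureTheory Complex Filter Topology Pool.Agent.H62T
open Pool.Agent.H16F (Sublin)
open Pool.Agent.AEU Pool.Agent.XQ

/-- PRD -/
theorem prd (vxx : VxxStatement) (prx : PrxStatement) : PrdStatement := by
  intro P Q L hH hP hQ hL a ha a' ha' hne hd hF
  have hp := par_of vxx hQ ha ha' hne hd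
  by_cases hex : ∃ x y, Pt Q a a' x y
  swap
  · refine ⟨1, one_pos, ?_⟩
    rintro h hs hfit - ⟨h1, h2⟩
    obtain ⟨x, y, hxy, -⟩ := contacts vxx hp hs hfit h1 h2
    exact hex ⟨x, y, hxy⟩
  obtain ⟨x₁, y₁, h1⟩ := hex
  obtain ⟨x₀, y₀, h0⟩ := exists_mn ((vxx Q hQ).2.2.2.2.2.2.2.2.1) h1
  obtain ⟨b1, b2, b3, b4, b5, b6⟩ := seg_body h0.1.cx h0.1.cy
  obtain ⟨e1, e2⟩ := prx P Q L hH hP hQ hL a ha a' ha' hne hd _ b1 b2
    (b6 a ha (Or.inl h0.1.ax)) (b6 a' ha' (Or.inr h0.1.ay))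
  have e3 : L < lam (hf ![x₀, y₀]) := lt_of_le_of_ne e1 fun h => hF (e2 h.symm)
  refine ⟨lam (hf ![x₀, y₀]) - L, by linarith, ?_⟩
  rintro h hs hfit hl ⟨t1, t2⟩
  obtain ⟨x, y, hxy, hx, hy⟩ := contacts vxx hp hs hfit t1 t2
  have e4 := h0.2 x y hxy
  have e5 := seg_le hs hx hy
  rw [b5] at hl
  linarith

end Pool.Agent.XQ.H67
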