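import Pool.Agent.Helper16_XQ.StmtD
import Pool.Agent.Helper35_AEU.ZsB
import Pool.Agent.Helper69_AEU.Lam

/-!
Squad XQ (MP_5b0138_an), module DCX: the triples of sides near the level `L`.
-/

set_option autoImplicit false

namespace Pool.Agent.XQ.H67

open MeasureTheory Complex Filter Topology Pool.Agent.H62T
open Pool.Agent.H16F (Sublin ind)
open Pool.Agent.AEU Pool.Agent.XQ

theorem dcx_ind_true {p : Prop} (h : p) : ind p = 1 := by
  unfold H16F.ind; rw [if_pos h]

theorem dcx_ind_false {p : Prop} (h : ¬ p) : ind p = 0 := by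
  unfold H16F.ind; rw [if_neg h]

theorem dcx_mem_touch {X : Finset HP} {h : ℂ → ℝ} {s : HP} :
    s ∈ touch X h ↔ s ∈ X ∧ h s.1 = s.2 := H35.mem_touch

theorem dcx_eq_of_ip {s t x y : ℂ} (h : dt s t ≠ 0) (h1 : ip s x = ip s y) (h2 : ip t x = ip t y) :
    x = y := by
  simp only [ip] at h1 h2
  have e1 : dt s t * (x.re - y.re) = 0 := by
    simp only [dt]
    linear_combination t.im * h1 - s.im * h2
  have e2 : dt s t * (x.im - y.im) = 0 := by
    simp only [dt]
    linear_combination s.re * h2 - t.re * h1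
  have e3 := (mul_eq_zero.1 e1).resolve_left h
  have e4 := (mul_eq_zero.1 e2).resolve_left h
  apply Complex.ext <;> linarith

/-- the contribution of a triple with a parallel pair vanishes -/
theorem dcx_Zs_par {S : Finset HP} (hS : S.card = 3) (hn : ¬ Np S) (h : ℂ → ℝ) : Zs S h = 0 := by
  classical
  obtain ⟨a, b, c, rfl, hab, hac, hbc, hD⟩ := H35.exists_order hS
  rcases hD.eq_or_lt with hD | hD
  · exact H35.Zs_zero hD.symm h
  rw [H35.Zs_eq hab hac hbc hD]
  have hpr : pr a.1 b.1 c.1 = 0 := by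
    by_contra hne
    apply hn
    unfold pr at hne
    have h1 : dt a.1 b.1 ≠ 0 := fun h0 => hne (by rw [h0]; ring)
    have h2 : dt b.1 c.1 ≠ 0 := fun h0 => hne (by rw [h0]; ring)
    have h3 : dt c.1 a.1 ≠ 0 := fun h0 => hne (by rw [h0]; ring)
    have sw : ∀ u v : ℂ, dt u v ≠ 0 → dt v u ≠ 0 := by
      intro u v h4 h5
      apply h4
      simp only [dt] at h5 ⊢
      linarith
    intro s hs t ht hst
    simp only [Finset.mem_insert, Finset.mem_singleton] at hs ht
    rcases hs with rfl | rfl | rfl <;> rcases ht with rfl | rfl | rfl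
    · exact absurd rfl hst
    · exact h1
    · exact sw _ _ h3
    · exact sw _ _ h1
    · exact absurd rfl hst
    · exact h2
    · exact h3
    · exact sw _ _ h2
    · exact absurd rfl hst
  unfold ZZ
  rw [hpr]
  simp

/-- the copy of the body on the three lines -/
theorem dcx_copy {S : Finset HP} (hS : S.card = 3) (hn : Np S) {h : ℂ → ℝ} (hz : Zs S h ≠ 0) :
    ∃ (σ : ℝ) (x : ℂ), 0 < σ ∧ σ ≤ 1 ∧ (∀ s ∈ S, σ * h s.1 + ip s.1 x = s.2) ∧
      ∀ (σ' : ℝ) (x' : ℂ), (∀ s ∈ S, σ' * h s.1 + ip s.1 x' = s.2) → σ' = σ ∧ x' = x := by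
  classical
  obtain ⟨a, b, c, rfl, hab, hac, hbc, hD⟩ := H35.exists_order hS
  rcases hD.eq_or_lt with hD | hD
  · exact absurd (H35.Zs_zero hD.symm h) hz
  rw [H35.Zs_eq hab hac hbc hD] at hz
  have hDD : D0 a b c < DD a.1 b.1 c.1 h := by
    by_contra hcon
    exact hz (H35.ZZ_eq_zero (not_lt.1 hcon))
  have hDD0 : 0 < DD a.1 b.1 c.1 h := hD.trans hDD
  have hdt : dt a.1 b.1 ≠ 0 := hn a (by simp) b (by simp) hab
  obtain ⟨σ, hσ⟩ : ∃ σ, σ = D0 a b c / DD a.1 b.1 c.1 h := ⟨_, rfl⟩
  have hσ0 : 0 < σ := by rw [hσ]; positivity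
  have hσ1 : σ ≤ 1 := by rw [hσ]; exact (div_le_one hDD0).2 hDD.le
  have hσD : σ * DD a.1 b.1 c.1 h = D0 a b c := by rw [hσ]; field_simp
  obtain ⟨x, hx⟩ : ∃ x, x = H35.cpt a.1 b.1 (a.2 - σ * h a.1) (b.2 - σ * h b.1) := ⟨_, rfl⟩
  have hxa : ip a.1 x = a.2 - σ * h a.1 := by rw [hx]; exact H35.ip_cpt_left hdt _ _
  have hxb : ip b.1 x = b.2 - σ * h b.1 := by rw [hx]; exact H35.ip_cpt_right hdt _ _
  have hxc : ip c.1 x = c.2 - σ * h c.1 := by
    have h3 := H35.dt_ip_cyc a.1 b.1 c.1 x
    have h4 : dt a.1 b.1 * (ip c.1 x + σ * h c.1 - c.2) = 0 := by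
      rw [hxa, hxb] at h3
      unfold DD D0 at hσD
      linear_combination h3 + hσD
    rcases mul_eq_zero.1 h4 with h5 | h5
    · exact absurd h5 hdt
    · linarith
  refine ⟨σ, x, hσ0, hσ1, ?_, ?_⟩
  · intro s hs
    simp only [Finset.mem_insert, Finset.mem_singleton] at hs
    rcases hs with rfl | rfl | rfl <;> linarith
  · intro σ' x' h'
    have ea := h' a (by simp)
    have eb := h' b (by simp)
    have ec := h' c (by simp)
    have h1 : σ' * DD a.1 b.1 c.1 h = D0 a b c := by
      have := H35.dt_ip_cyc a.1 b.1 c.1 x'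
      have fa : a.2 - σ' * h a.1 = ip a.1 x' := by linarith
      have fb : b.2 - σ' * h b.1 = ip b.1 x' := by linarith
      have fc : c.2 - σ' * h c.1 = ip c.1 x' := by linarith
      rw [← fa, ← fb, ← fc] at this
      unfold DD D0
      linarith
    have h2 : σ' = σ := by
      have : (σ' - σ) * DD a.1 b.1 c.1 h = 0 := by
        rw [sub_mul, h1, hσD]; ring
      rcases mul_eq_zero.1 this with h3 | h3
      · linarith
      · exact absurd h3 hDD0.ne'
    subst h2
    refine ⟨rfl, dcx_eq_of_ip hdt ?_ ?_⟩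
    · rw [hxa]; linarith
    · rw [hxb]; linarith

theorem dcx_sublin {h : ℂ → ℝ} (hs : Sublin h) {σ : ℝ} (hσ : 0 ≤ σ) (x : ℂ) :
    Sublin fun w => σ * h w + ip w x := by
  constructor
  · intro a b
    have h1 := hs.1 a b
    have h2 : ip (a + b) x = ip a x + ip b x := by
      simp only [ip, add_re, add_im]; ring
    simp only
    rw [h2]
    nlinarith
  · intro c a hc
    have h1 := hs.2 c a hc
    have h2 : ip ((c : ℂ) * a) x = c * ip a x := by
      simp only [ip, re_ofReal_mul, im_ofReal_mul]; ring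
    simp only
    rw [h1, h2]
    ring

theorem dcx_lam {h : ℂ → ℝ} (hs : Sublin h) {σ : ℝ} (hσ : 0 ≤ σ) (hσ1 : σ ≤ 1) (x : ℂ) :
    lam (fun w => σ * h w + ip w x) ≤ lam h := by
  have h1 := AEU.H69.lamS.1 h h hs hs σ 0 x
  have h2 := AEU.H69.lamS.2.2.1 h hs
  have e : (fun w => σ * h w + 0 * h w + ip w x) = fun w => σ * h w + ip w x := by
    funext w; ring
  rw [e] at h1
  rw [h1]
  nlinarith

/-- DCX -/
theorem dcx (clx : ClxStatement) : DcxStatement := by
  classical
  intro X L δ M N T c K hL hX pt h hs hl ht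
  -- the cells
  have hcell : ∀ F ∈ T, (-1) ^ (Mm F (c F)).card * Ar (Mp F (c F)) (Mm F (c F)) h
      = -∑ t ∈ Mp F (c F), ind (EvO (F.erase t) t h) * Zs (F.erase t) h
        + ∑ t ∈ Mm F (c F), ind (EvN (F.erase t) t h) * Zs (F.erase t) h := by
    intro F hF
    obtain ⟨hFX, tc⟩ := pt.torn F hF
    refine clx F (c F) tc.card (fun s hs => hX.unit s (hFX hs)) tc.np tc.ne tc.dep ?_ h ?_
    · rw [tc.val]; exact hL
    · intro σ x hσ U hU hc
      exact ht σ x hσ U (hU.trans hFX) hc
  -- members of `T`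
  have hTX : ∀ F ∈ T, F ⊆ X := fun F hF => (pt.torn F hF).1
  have h3 : ∀ S ∈ M ∪ N, S ⊆ X ∧ S.card = 3 ∧ Np S := by
    intro S hS
    rcases Finset.mem_union.1 hS with hS | hS
    · have := Finset.mem_powersetCard.1 (pt.sM hS)
      exact ⟨this.1, this.2, pt.nM S hS⟩
    · have := Finset.mem_powersetCard.1 (pt.sN hS)
      exact ⟨this.1, this.2, pt.nN S hS⟩
  have hsub : M ∪ N ⊆ X.powersetCard 3 := by
    intro S hS
    obtain ⟨h1, h2, -⟩ := h3 S hS
    exact Finset.mem_powersetCard.2 ⟨h1, h2⟩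
  -- (A)
  have hA : ∀ S ∈ M ∪ N, ind (Ev (rlx X T c S) S h) * Zs S h
      = ind (Ev X S h) * Zs S h + ∑ t ∈ er X T c S, ind (EvO S t h) * Zs S h := by
    intro S hS
    obtain ⟨hSX, hS3, hSn⟩ := h3 S hS
    by_cases hz : Zs S h = 0
    · simp [hz]
    obtain ⟨σ, x, hσ, hσ1, hk, huniq⟩ := dcx_copy hS3 hSn hz
    set k : ℂ → ℝ := fun w => σ * h w + ip w x with hkd
    have hkS : ∀ s ∈ S, k s.1 = s.2 := hk
    have hksub : Sublin k := dcx_sublin hs hσ.le x
    have hklam : lam k < L + δ := (dcx_lam hs hσ.le hσ1 x).trans_lt hl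
    have hne : ∀ t ∈ X, t ∉ S → k t.1 ≠ t.2 := by
      intro t htX htS
      obtain ⟨s, hs1, hs2⟩ := ht σ x hσ (insert t S)
        (Finset.insert_subset htX hSX) (by rw [Finset.card_insert_of_notMem htS, hS3])
      rcases Finset.mem_insert.1 hs1 with rfl | hs1
      · exact hs2
      · exact absurd (hkS s hs1) hs2
    have hev : ∀ Y : Finset HP, Ev Y S h ↔ Fits Y k ∧ touch Y k = S := by
      intro Y
      constructor
      · rintro ⟨σ', x', hσ', hσ1', hf, htc⟩
        have h1 : ∀ s ∈ S, σ' * h s.1 + ip s.1 x' = s.2 := by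
          intro s hs'
          rw [← htc] at hs'
          exact (dcx_mem_touch.1 hs').2
        obtain ⟨rfl, rfl⟩ := huniq σ' x' h1
        exact ⟨hf, htc⟩
      · rintro ⟨hf, htc⟩
        exact ⟨σ, x, hσ, hσ1, hf, htc⟩
    have hevO : ∀ t, EvO S t h ↔ t.2 < k t.1 := by
      intro t
      constructor
      · rintro ⟨σ', x', hσ', hσ1', h1, h2⟩
        obtain ⟨rfl, rfl⟩ := huniq σ' x' h1
        exact h2
      · intro h2
        exact ⟨σ, x, hσ, hσ1, hk, h2⟩
    have her : ∀ t, t ∈ er X T c S ↔ t ∈ X ∧ t ∉ S ∧ insert t S ∈ T ∧ 0 < c (insert t S) t := by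
      intro t
      unfold er
      rw [Finset.mem_filter]
    have hSr : S ⊆ rlx X T c S := by
      intro s hs'
      unfold rlx
      rw [Finset.mem_sdiff, her]
      exact ⟨hSX hs', fun h1 => h1.2.1 hs'⟩
    have hrX : rlx X T c S ⊆ X := by
      unfold rlx
      exact Finset.sdiff_subset
    rw [← Finset.sum_mul, ← add_mul]
    congr 1
    by_cases hout : ∃ t ∈ er X T c S, t.2 < k t.1
    · obtain ⟨t, hter, htk⟩ := hout
      obtain ⟨htX, htS, hFT, hct⟩ := (her t).1 hter
      have far := pt.far (insert t S) hFT k hksub hklam (by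
        intro s hs'
        rcases Finset.mem_insert.1 hs' with rfl | hs'
        · exact mul_nonneg hct.le (by linarith)
        · rw [hkS s hs']; simp)
      have hstrict : ∀ s ∈ X, s ∉ S → s ≠ t → k s.1 < s.2 := by
        intro s hsX hsS hst
        exact far s hsX (by
          rw [Finset.mem_insert]
          push Not
          exact ⟨hst, hsS⟩)
      have e1 : Ev (rlx X T c S) S h := by
        rw [hev]
        constructor
        · intro s hs'
          by_cases hsS : s ∈ S
          · exact (hkS s hsS).le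
          · refine (hstrict s (hrX hs') hsS ?_).le
            rintro rfl
            unfold rlx at hs'
            exact (Finset.mem_sdiff.1 hs').2 hter
        · ext s
          rw [dcx_mem_touch]
          constructor
          · rintro ⟨h1, h2⟩
            by_contra hsS
            have hst : s ≠ t := by
              rintro rfl
              unfold rlx at h1
              exact (Finset.mem_sdiff.1 h1).2 hter
            exact absurd h2 (hstrict s (hrX h1) hsS hst).ne
          · intro hsS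
            exact ⟨hSr hsS, hkS s hsS⟩
      have e2 : ¬ Ev X S h := by
        rw [hev]
        rintro ⟨h1, -⟩
        exact absurd (h1 t htX) (not_le.2 htk)
      rw [dcx_ind_true e1, dcx_ind_false e2, zero_add,
        Finset.sum_eq_single_of_mem t hter, dcx_ind_true ((hevO t).2 htk)]
      intro s hs' hst
      obtain ⟨hsX, hsS, -, -⟩ := (her s).1 hs'
      apply dcx_ind_false
      rw [hevO]
      exact not_lt.2 (hstrict s hsX hsS hst).le
    · push Not at hout
      have e1 : Ev (rlx X T c S) S h ↔ Ev X S h := by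
        rw [hev, hev]
        constructor
        · rintro ⟨h1, h2⟩
          have hf : Fits X k := by
            intro s hsX
            by_cases hse : s ∈ er X T c S
            · exact hout s hse
            · exact h1 s (by unfold rlx; exact Finset.mem_sdiff.2 ⟨hsX, hse⟩)
          refine ⟨hf, ?_⟩
          ext s
          rw [dcx_mem_touch]
          constructor
          · rintro ⟨h3, h4⟩
            by_contra hsS
            exact hne s h3 hsS h4
          · intro hsS
            exact ⟨hSX hsS, hkS s hsS⟩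
        · rintro ⟨h1, h2⟩
          refine ⟨fun s hs' => h1 s (hrX hs'), ?_⟩
          ext s
          rw [dcx_mem_touch]
          constructor
          · rintro ⟨h3, h4⟩
            by_contra hsS
            exact hne s (hrX h3) hsS h4
          · intro hsS
            exact ⟨hSr hsS, hkS s hsS⟩
      have e2 : ∑ t ∈ er X T c S, ind (EvO S t h) = 0 := by
        apply Finset.sum_eq_zero
        intro t hter
        apply dcx_ind_false
        rw [hevO]
        exact not_lt.2 (hout t hter)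
      rw [e2, add_zero, propext e1]
  -- (B)
  have hB : ∀ F ∈ T, ∀ t ∈ F, c F t < 0 →
      ind (EvN (F.erase t) t h) * Zs (F.erase t) h = ind (Ev X (F.erase t) h) * Zs (F.erase t) h := by
    intro F hF t htF hct
    obtain ⟨hFX, tc⟩ := pt.torn F hF
    set S := F.erase t with hSd
    have hS3 : S.card = 3 := by rw [hSd, Finset.card_erase_of_mem htF, tc.card]
    have hSn : Np S := by
      intro s hs1 r hr1 hsr
      exact tc.np s (Finset.mem_of_mem_erase hs1) r (Finset.mem_of_mem_erase hr1) hsr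
    have hSX : S ⊆ X := (Finset.erase_subset _ _).trans hFX
    have htS : t ∉ S := Finset.notMem_erase _ _
    by_cases hz : Zs S h = 0
    · simp [hz]
    obtain ⟨σ, x, hσ, hσ1, hk, huniq⟩ := dcx_copy hS3 hSn hz
    set k : ℂ → ℝ := fun w => σ * h w + ip w x with hkd
    have hkS : ∀ s ∈ S, k s.1 = s.2 := hk
    have hksub : Sublin k := dcx_sublin hs hσ.le x
    have hklam : lam k < L + δ := (dcx_lam hs hσ.le hσ1 x).trans_lt hl
    congr 1
    have e : EvN S t h ↔ Ev X S h := by
      constructor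
      · rintro ⟨σ', x', hσ', hσ1', h1, h2⟩
        obtain ⟨rfl, rfl⟩ := huniq σ' x' h1
        have h2' : k t.1 < t.2 := h2
        have far := pt.far F hF k hksub hklam (by
          intro s hs'
          by_cases hst : s = t
          · subst hst
            exact mul_nonneg_of_nonpos_of_nonpos hct.le (by linarith)
          · rw [hkS s (Finset.mem_erase.2 ⟨hst, hs'⟩)]; simp)
        refine ⟨σ', x', hσ', hσ1', ?_, ?_⟩
        · intro s hsX
          by_cases hsF : s ∈ F
          · by_cases hst : s = t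
            · rw [hst]; exact h2'.le
            · exact (hkS s (Finset.mem_erase.2 ⟨hst, hsF⟩)).le
          · exact (far s hsX hsF).le
        · ext s
          rw [dcx_mem_touch]
          constructor
          · rintro ⟨h3, h4⟩
            by_cases hsF : s ∈ F
            · by_cases hst : s = t
              · rw [hst] at h4
                exact absurd h4 h2'.ne
              · exact Finset.mem_erase.2 ⟨hst, hsF⟩
            · exact absurd h4 (far s h3 hsF).ne
          · intro hsS
            exact ⟨hSX hsS, hkS s hsS⟩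
      · rintro ⟨σ', x', hσ', hσ1', hf, htc⟩
        have h1 : ∀ s ∈ S, σ' * h s.1 + ip s.1 x' = s.2 := by
          intro s hs'
          rw [← htc] at hs'
          exact (dcx_mem_touch.1 hs').2
        refine ⟨σ', x', hσ', hσ1', h1, lt_of_le_of_ne (hf t (hFX htF)) ?_⟩
        intro h2
        apply htS
        rw [← htc]
        exact dcx_mem_touch.2 ⟨hFX htF, h2⟩
    rw [propext e]
  -- assembly
  unfold DX
  rw [Finset.sum_congr rfl hA, Finset.sum_add_distrib, Finset.sum_congr rfl hcell,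
    Finset.sum_add_distrib, Finset.sum_neg_distrib]
  -- the erased sides
  have hP : ∑ S ∈ M ∪ N, ∑ t ∈ er X T c S, ind (EvO S t h) * Zs S h
      = ∑ F ∈ T, ∑ t ∈ Mp F (c F), ind (EvO (F.erase t) t h) * Zs (F.erase t) h := by
    rw [Finset.sum_sigma', Finset.sum_sigma']
    refine Finset.sum_nbij' (fun p => ⟨insert p.2 p.1, p.2⟩) (fun p => ⟨p.1.erase p.2, p.2⟩)
      ?_ ?_ ?_ ?_ ?_
    · rintro ⟨S, t⟩ hp
      obtain ⟨-, h2⟩ := Finset.mem_sigma.1 hp
      unfold er at h2
      obtain ⟨h3, h4, h5, h6⟩ := Finset.mem_filter.1 h2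
      refine Finset.mem_sigma.2 ⟨h5, ?_⟩
      unfold Mp
      exact Finset.mem_filter.2 ⟨Finset.mem_insert_self _ _, h6⟩
    · rintro ⟨F, t⟩ hp
      obtain ⟨h1, h2⟩ := Finset.mem_sigma.1 hp
      unfold Mp at h2
      obtain ⟨h3, h4⟩ := Finset.mem_filter.1 h2
      simp only at h1 h3 h4
      refine Finset.mem_sigma.2 ⟨pt.tin F h1 t h3 h4, ?_⟩
      unfold er
      simp only
      rw [Finset.mem_filter, Finset.insert_erase h3]
      exact ⟨hTX F h1 h3, Finset.notMem_erase _ _, h1, h4⟩
    · rintro ⟨S, t⟩ hp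
      obtain ⟨-, h2⟩ := Finset.mem_sigma.1 hp
      unfold er at h2
      obtain ⟨-, h4, -⟩ := Finset.mem_filter.1 h2
      simp only at h4 ⊢
      rw [Finset.erase_insert h4]
    · rintro ⟨F, t⟩ hp
      obtain ⟨-, h2⟩ := Finset.mem_sigma.1 hp
      unfold Mp at h2
      obtain ⟨h3, -⟩ := Finset.mem_filter.1 h2
      simp only at h3 ⊢
      rw [Finset.insert_erase h3]
    · rintro ⟨S, t⟩ hp
      obtain ⟨-, h2⟩ := Finset.mem_sigma.1 hp
      unfold er at h2
      obtain ⟨-, h4, -⟩ := Finset.mem_filter.1 h2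
      simp only at h4 ⊢
      rw [Finset.erase_insert h4]
  -- the triples in `TB`
  have hM : ∑ F ∈ T, ∑ t ∈ Mm F (c F), ind (EvN (F.erase t) t h) * Zs (F.erase t) h
      = ∑ S ∈ (X.powersetCard 3).filter (TB T c), ind (Ev X S h) * Zs S h := by
    rw [Finset.sum_sigma']
    refine Finset.sum_bij (fun p _ => p.1.erase p.2) ?_ ?_ ?_ ?_
    · rintro ⟨F, t⟩ hp
      obtain ⟨h1, h2⟩ := Finset.mem_sigma.1 hp
      unfold Mm at h2
      obtain ⟨h3, h4⟩ := Finset.mem_filter.1 h2
      simp only at h1 h3 h4 ⊢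
      obtain ⟨hFX, tc⟩ := pt.torn F h1
      refine Finset.mem_filter.2 ⟨Finset.mem_powersetCard.2 ⟨(Finset.erase_subset _ _).trans hFX, ?_⟩,
        F, h1, t, h3, rfl, h4⟩
      rw [Finset.card_erase_of_mem h3, tc.card]
    · rintro ⟨F, t⟩ hp ⟨F', t'⟩ hp' he
      obtain ⟨h1, h2⟩ := Finset.mem_sigma.1 hp
      obtain ⟨h1', h2'⟩ := Finset.mem_sigma.1 hp'
      unfold Mm at h2 h2'
      obtain ⟨h3, h4⟩ := Finset.mem_filter.1 h2
      obtain ⟨h3', h4'⟩ := Finset.mem_filter.1 h2'
      obtain ⟨rfl, rfl⟩ := pt.tinj F h1 F' h1' t h3 t' h3' h4 h4' he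
      rfl
    · intro S hS
      obtain ⟨-, F, hF, t, htF, hSe, hct⟩ := Finset.mem_filter.1 hS
      refine ⟨⟨F, t⟩, Finset.mem_sigma.2 ⟨hF, ?_⟩, hSe.symm⟩
      unfold Mm
      exact Finset.mem_filter.2 ⟨htF, hct⟩
    · rintro ⟨F, t⟩ hp
      obtain ⟨h1, h2⟩ := Finset.mem_sigma.1 hp
      unfold Mm at h2
      obtain ⟨h3, h4⟩ := Finset.mem_filter.1 h2
      exact hB F h1 t h3 h4
  rw [hP, hM]
  have hdisj : Disjoint (M ∪ N) ((X.powersetCard 3).filter (TB T c)) := by
    rw [Finset.disjoint_left]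
    intro S hS hS'
    have htb := (Finset.mem_filter.1 hS').2
    rcases Finset.mem_union.1 hS with h1 | h1
    · exact pt.dM S h1 htb
    · exact pt.dN S h1 htb
  have hsub2 : (M ∪ N) ∪ (X.powersetCard 3).filter (TB T c) ⊆ X.powersetCard 3 :=
    Finset.union_subset hsub (Finset.filter_subset _ _)
  rw [← Finset.sum_subset hsub2, Finset.sum_union hdisj]
  · ring
  · intro S hS hS'
    rw [Finset.mem_union, Finset.mem_filter] at hS'
    push Not at hS'
    obtain ⟨h1, h2⟩ := hS'
    rw [Finset.mem_union] at h1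
    push Not at h1
    obtain ⟨hSX, hS3⟩ := Finset.mem_powersetCard.1 hS
    by_cases hSn : Np S
    · rw [dcx_ind_false (pt.out S hS hSn h1.1 h1.2 (h2 hS) h hs hl), zero_mul]
    · rw [dcx_Zs_par hS3 hSn, mul_zero]

end Pool.Agent.XQ.H67
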