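import Pool.Agent.Helper67_XQ.Prx

/-!
Squad XQ (MP_5b0138_an), module FCX.
-/

set_option autoImplicit false

namespace Pool.Agent.XQ.H67

open MeasureTheory Complex Filter Topology Pool.Agent.H62T
open Pool.Agent.H16F (Sublin)
open Pool.Agent.AEU Pool.Agent.XQ

/-- FCX -/
theorem fcx (vxx : VxxStatement) (cqx : CqxStatement) : FcxStatement := by
  intro P Q L hH hP hQ hL a a' hF
  have hne : a ≠ a' := by
    rintro rfl
    have h1 := hF.opp
    have h2 := hQ.unit a hF.mem
    have h3 : a.1 = 0 := by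
      have : (2 : ℂ) * a.1 = 0 := by linear_combination h1
      simpa using this
    rw [h3] at h2
    simp at h2
  have hp : Par Q a a' := ⟨hQ, hF.mem, hF.mem', hne, hF.opp⟩
  have hu := hQ.unit a hF.mem
  have hIu := norm_I_mul hu
  obtain ⟨x, hx, hax, hy⟩ := hF.seg
  set y : ℂ := x - ((L / 2 : ℝ) : ℂ) * a.1 with hyd
  have hay : ip a'.1 y = a'.2 := by
    rw [hF.opp, ip_neg_left, hyd, ip_sub, ip_mul_ofReal, ip_self_one hu, hax]
    have := hF.dist
    linarith
  -- it is enough to move the pair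
  suffices hmv : ∃ r : ℝ, r ≠ 0 ∧ x + (r : ℂ) * (I * a.1) ∈ Cl Q ∧
      y + (r : ℂ) * (I * a.1) ∈ Cl Q by
    obtain ⟨r, hr0, h1, h2⟩ := hmv
    refine ⟨x, x + (r : ℂ) * (I * a.1), ?_, hx, h1, hax, ?_, hy, ?_⟩
    · intro h
      have h3 : (r : ℂ) * (I * a.1) = 0 := by linear_combination -h
      have h4 : ‖(r : ℂ) * (I * a.1)‖ = 0 := by rw [h3]; simp
      rw [norm_mul, hIu, norm_real, mul_one, norm_eq_zero] at h4
      exact hr0 h4
    · rw [ip_add, ip_mul_ofReal, ip_I_self, hax]; ring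
    · have e : x + (r : ℂ) * (I * a.1) - ((L / 2 : ℝ) : ℂ) * a.1 = y + (r : ℂ) * (I * a.1) := by
        rw [hyd]; ring
      rw [e]
      exact h2
  obtain ⟨t, ht0, ht⟩ := free vxx hQ hF.mem hx hax
  obtain ⟨t', ht0', ht'⟩ := free vxx hQ hF.mem' hy hay
  -- moves of `y` in the direction `I a`
  have hmy : ¬ Vx Q y → ∀ᶠ r : ℝ in 𝓝 0, y + (r : ℂ) * (I * a.1) ∈ Cl Q := by
    intro hv
    have h2 := move vxx hQ hF.mem' hy hay hv
    have hn : Tendsto (fun r : ℝ => -r) (𝓝 0) (𝓝 0) := by
      have := (continuous_neg (G := ℝ)).tendsto 0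
      simpa using this
    refine (hn.eventually h2).mono fun r hr => ?_
    rw [hF.opp] at hr
    have e : y + ((-r : ℝ) : ℂ) * (I * -a.1) = y + (r : ℂ) * (I * a.1) := by
      push_cast; ring
    rwa [e] at hr
  have ht'' : y + ((-t' : ℝ) : ℂ) * (I * a.1) ∈ Cl Q := by
    rw [hF.opp] at ht'
    have e : y + (t' : ℂ) * (I * -a.1) = y + ((-t' : ℝ) : ℂ) * (I * a.1) := by
      push_cast; ring
    rwa [e] at ht'
  -- small multiples
  have small : ∀ (p : ℝ → Prop), (∀ᶠ r : ℝ in 𝓝 0, p r) → ∀ c : ℝ, c ≠ 0 →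
      ∃ r : ℝ, 0 < r ∧ r ≤ 1 ∧ p (r * c) := by
    intro p hp' c hc
    rw [Metric.eventually_nhds_iff] at hp'
    obtain ⟨ε, hε, h1⟩ := hp'
    have hc' : 0 < |c| := abs_pos.2 hc
    refine ⟨min 1 (ε / (2 * |c|)), lt_min one_pos (by positivity), min_le_left _ _, h1 ?_⟩
    rw [Real.dist_eq, sub_zero, abs_mul, abs_of_pos (lt_min one_pos (by positivity))]
    have h2 : min 1 (ε / (2 * |c|)) * |c| ≤ ε / (2 * |c|) * |c| := by
      gcongr
      exact min_le_right _ _
    have h3 : ε / (2 * |c|) * |c| = ε / 2 := by field_simp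
    linarith
  by_cases hvx : Vx Q x
  swap
  · -- `x` can be moved in both directions
    obtain ⟨r, hr0, hr1, hr2⟩ := small _ (move vxx hQ hF.mem hx hax hvx) (-t')
      (neg_ne_zero.2 ht0')
    refine ⟨r * -t', mul_ne_zero hr0.ne' (neg_ne_zero.2 ht0'), hr2, ?_⟩
    exact between hy ht'' hr0.le hr1
  by_cases hvy : Vx Q y
  swap
  · obtain ⟨r, hr0, hr1, hr2⟩ := small _ (hmy hvy) t ht0
    exact ⟨r * t, mul_ne_zero hr0.ne' ht0, between hx ht hr0.le hr1, hr2⟩
  -- both ends are vertices
  by_cases hsign : 0 < t * -t'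
  · -- same direction
    rcases le_total |t| |t'| with hle | hle
    · refine ⟨t, ht0, ht, ?_⟩
      have h1 : 0 ≤ t / -t' := by
        rw [div_nonneg_iff]
        rcases lt_or_gt_of_ne ht0 with h | h
        · right
          refine ⟨h.le, ?_⟩
          by_contra hc
          push Not at hc
          nlinarith
        · left
          refine ⟨h.le, ?_⟩
          by_contra hc
          push Not at hc
          nlinarith
      have h2 : t / -t' ≤ 1 := by
        have : |t / -t'| ≤ 1 := by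
          rw [abs_div, abs_neg]
          exact div_le_one_of_le₀ hle (abs_nonneg _)
        exact (abs_le.1 this).2
      have h3 := between hy ht'' h1 h2
      rwa [div_mul_cancel₀ _ (neg_ne_zero.2 ht0')] at h3
    · refine ⟨-t', neg_ne_zero.2 ht0', ?_, ht''⟩
      have h1 : 0 ≤ -t' / t := by
        rw [div_nonneg_iff]
        rcases lt_or_gt_of_ne ht0 with h | h
        · right
          refine ⟨?_, h.le⟩
          by_contra hc
          push Not at hc
          nlinarith
        · left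
          refine ⟨?_, h.le⟩
          by_contra hc
          push Not at hc
          nlinarith
      have h2 : -t' / t ≤ 1 := by
        have : |-t' / t| ≤ 1 := by
          rw [abs_div, abs_neg]
          exact div_le_one_of_le₀ hle (abs_nonneg _)
        exact (abs_le.1 this).2
      have h3 := between hx ht h1 h2
      rwa [div_mul_cancel₀ _ ht0] at h3
  -- opposite directions: four contacts
  exfalso
  obtain ⟨s, hs⟩ := vx_on vxx hQ hF.mem hax hvx
  obtain ⟨s', hs'⟩ := vx_on vxx hQ hF.mem' hay hvy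
  have hss : s ≠ s' := by
    rintro rfl
    have e3 := ht s hs.mem₂
    have e4 := ht'' s hs.mem₂
    rw [ip_add, ip_mul_ofReal, hs.on₂] at e3
    rw [ip_add, ip_mul_ofReal, hs'.on₂] at e4
    have hd : dt a.1 s.1 ≠ 0 := ((vxx Q hQ).2.2.2.2.1 _ _ _ hs).2.2
    have hd' : ip s.1 (I * a.1) ≠ 0 := by
      rw [ip_I]
      intro h0
      apply hd
      simp only [dt] at h0 ⊢
      linarith
    set m := ip s.1 (I * a.1)
    have f3 : t * m < 0 := lt_of_le_of_ne (by linarith) (by
      intro h0; rcases mul_eq_zero.1 h0 with h0 | h0 <;> contradiction)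
    have f4 : -t' * m < 0 := lt_of_le_of_ne (by linarith) (by
      intro h0; rcases mul_eq_zero.1 h0 with h0 | h0
      · exact ht0' (neg_eq_zero.1 h0)
      · exact hd' h0)
    have f5 : 0 < t * m * (-t' * m) := mul_pos_of_neg_of_neg f3 f4
    have f6 : t * m * (-t' * m) = t * -t' * m ^ 2 := by ring
    rw [f6] at f5
    have hm2 : 0 < m ^ 2 := by positivity
    exact hsign ((pos_iff_pos_of_mul_pos f5).2 hm2)
  have hpt : Pt Q a a' x y := ⟨hx, hy, hax, hay⟩
  obtain ⟨b1, b2, b3, b4, b5, b6⟩ := seg_body hx hy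
  have hlen : lam (hf ![x, y]) = L := by
    rw [b5, hyd, sub_sub_cancel, norm_mul, hu, norm_real, Real.norm_eq_abs,
      abs_of_pos (by positivity)]
    ring
  exact not4 cqx hH hP hp (special_of_vx vxx hp hpt hvx) (b6 a hF.mem (Or.inl hax))
    (b6 a' hF.mem' (Or.inr hay)) hlen (four_contacts hp hs hs' hss)

end Pool.Agent.XQ.H67
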